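import Mathlib

/-! Exact edge-isoperimetric bound for down-sets, with a stability statement at powers of two. -/

namespace Pool.Agent.Lib.MP_24ae9b_co

open Finset

/-- `E u` is the sum of the binary digit sums of `0, ..., u-1`, given by its halving recursion. -/
def E : ℕ → ℕ
  | 0 => 0
  | 1 => 0
  | (n + 2) => E ((n + 2) / 2) + E ((n + 3) / 2) + (n + 2) / 2
  decreasing_by all_goals omega

theorem E_zero : E 0 = 0 := by rw [E]
theorem E_one : E 1 = 0 := by rw [E]

theorem E_even (n : ℕ) : E (2 * n) = 2 * E n + n := by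
  rcases n with _ | n
  · simp [E_zero]
  · have h : 2 * (n + 1) = 2 * n + 2 := by ring
    rw [h, E]
    have h1 : (2 * n + 2) / 2 = n + 1 := by omega
    have h2 : (2 * n + 3) / 2 = n + 1 := by omega
    rw [h1, h2]; ring

theorem E_odd (n : ℕ) : E (2 * n + 1) = E n + E (n + 1) + n := by
  rcases n with _ | n
  · simp [E_zero]
  · have h : 2 * (n + 1) + 1 = (2 * n + 1) + 2 := by ring
    rw [h, E]
    have h1 : (2 * n + 1 + 2) / 2 = n + 1 := by omega
    have h2 : (2 * n + 1 + 3) / 2 = n + 1 + 1 := by omega
    rw [h1, h2]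

theorem E_super_aux (s : ℕ) : ∀ a b : ℕ, a + b = s → E a + E b + min a b ≤ E (a + b) := by
  induction s using Nat.strong_induction_on with
  | _ s ih =>
    intro a b hab
    rcases Nat.eq_zero_or_pos a with rfl | ha
    · simp [E_zero]
    rcases Nat.eq_zero_or_pos b with rfl | hb
    · simp [E_zero]
    rcases Nat.even_or_odd' a with ⟨a', rfl | rfl⟩ <;> rcases Nat.even_or_odd' b with ⟨b', rfl | rfl⟩
    · have h := ih (a' + b') (by omega) a' b' rfl
      have e : 2 * a' + 2 * b' = 2 * (a' + b') := by ring
      rw [e, E_even, E_even, E_even]; omega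
    · have h1 := ih (a' + b') (by omega) a' b' rfl
      have h2 := ih (a' + (b' + 1)) (by omega) a' (b' + 1) rfl
      have e : 2 * a' + (2 * b' + 1) = 2 * (a' + b') + 1 := by ring
      have e2 : a' + (b' + 1) = a' + b' + 1 := by ring
      rw [e2] at h2
      rw [e, E_even, E_odd, E_odd]; omega
    · have h1 := ih (a' + b') (by omega) a' b' rfl
      have h2 := ih (a' + 1 + b') (by omega) (a' + 1) b' rfl
      have e : 2 * a' + 1 + 2 * b' = 2 * (a' + b') + 1 := by ring
      have e2 : a' + 1 + b' = a' + b' + 1 := by ring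
      rw [e2] at h2
      rw [e, E_even, E_odd, E_odd]; omega
    · have h1 := ih (a' + 1 + b') (by omega) (a' + 1) b' rfl
      have h2 := ih (a' + (b' + 1)) (by omega) a' (b' + 1) rfl
      have e : 2 * a' + 1 + (2 * b' + 1) = 2 * (a' + b' + 1) := by ring
      have e1 : a' + 1 + b' = a' + b' + 1 := by ring
      have e2 : a' + (b' + 1) = a' + b' + 1 := by ring
      rw [e1] at h1
      rw [e2] at h2
      rw [e, E_even, E_odd, E_odd]; omega

theorem E_super (a b : ℕ) : E a + E b + min a b ≤ E (a + b) := E_super_aux _ a b rfl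

theorem E_pow_add (K : ℕ) : ∀ u : ℕ, u ≤ 2 ^ K → 2 * E (2 ^ K + u) = K * 2 ^ K + 2 * u + 2 * E u := by
  induction K with
  | zero =>
    intro u hu
    have : u = 0 ∨ u = 1 := by simp at hu; omega
    rcases this with rfl | rfl
    · simp [E_zero, E_one]
    · have := E_even 1
      simp [E_one] at this ⊢
      omega
  | succ K ih =>
    intro u hu
    rw [pow_succ] at hu ⊢
    rcases Nat.even_or_odd' u with ⟨v, rfl | rfl⟩
    · have h := ih v (by omega)
      have e : 2 ^ K * 2 + 2 * v = 2 * (2 ^ K + v) := by ring
      rw [e, E_even, E_even]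
      nlinarith
    · have h1 := ih v (by omega)
      have h2 := ih (v + 1) (by omega)
      have e : 2 ^ K * 2 + (2 * v + 1) = 2 * (2 ^ K + v) + 1 := by ring
      have e2 : 2 ^ K + (v + 1) = 2 ^ K + v + 1 := by ring
      rw [e2] at h2
      rw [e, E_odd, E_odd]
      nlinarith

theorem E_lt_pow (K : ℕ) : ∀ u : ℕ, 1 ≤ u → u < 2 ^ K → 2 * E u + K ≤ K * u := by
  induction K with
  | zero => intro u h1 h2; simp at h2; omega
  | succ K ih =>
    intro u h1 h2
    rcases lt_or_ge u (2 ^ K) with h | h
    · have := ih u h1 h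
      nlinarith
    · obtain ⟨v, rfl⟩ := Nat.exists_eq_add_of_le h
      rw [pow_succ] at h2
      have hv : v < 2 ^ K := by omega
      have e := E_pow_add K v hv.le
      rcases Nat.eq_zero_or_pos v with rfl | hv1
      · have hK : K < 2 ^ K := Nat.lt_two_pow_self
        rw [E_zero] at e
        simp only [add_zero, mul_zero] at e ⊢
        nlinarith
      · have := ih v hv1 hv
        nlinarith

variable {α : Type*} [DecidableEq α]

/-- A family closed under deleting one element. -/
def IsDown (D : Finset (Finset α)) : Prop := ∀ A ∈ D, ∀ x, A.erase x ∈ D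

theorem sum_card_split (D : Finset (Finset α)) (x : α) :
    ∑ A ∈ D, A.card = ∑ A ∈ D.nonMemberSubfamily x, A.card
      + ∑ A ∈ D.memberSubfamily x, A.card + (D.memberSubfamily x).card := by
  have h1 : ∑ A ∈ D, A.card = ∑ A ∈ D.filter (fun A => x ∉ A), A.card
      + ∑ A ∈ D.filter (fun A => x ∈ A), A.card := by
    rw [add_comm]
    exact (Finset.sum_filter_add_sum_filter_not D (fun A => x ∈ A) _).symm
  have h2 : ∑ A ∈ D.filter (fun A => x ∈ A), A.card
      = ∑ A ∈ D.memberSubfamily x, (A.card + 1) := by
    unfold Finset.memberSubfamily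
    rw [Finset.sum_image]
    · apply Finset.sum_congr rfl
      intro A hA
      rw [Finset.mem_filter] at hA
      rw [Finset.card_erase_add_one hA.2]
    · intro A hA B hB hAB
      simp only [Finset.coe_filter, Set.mem_ofPred_eq] at hA hB
      have : insert x (A.erase x) = insert x (B.erase x) := by
        simp only at hAB
        rw [hAB]
      rwa [Finset.insert_erase hA.2, Finset.insert_erase hB.2] at this
  rw [h1, h2, Finset.sum_add_distrib]
  simp only [Finset.sum_const, smul_eq_mul, mul_one]
  unfold Finset.nonMemberSubfamily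
  ring

theorem IsDown.nonMember {D : Finset (Finset α)} (hD : IsDown D) (x : α) :
    IsDown (D.nonMemberSubfamily x) := by
  intro A hA y
  rw [Finset.mem_nonMemberSubfamily] at hA ⊢
  exact ⟨hD A hA.1 y, fun h => hA.2 (Finset.mem_of_mem_erase h)⟩

theorem IsDown.member {D : Finset (Finset α)} (hD : IsDown D) (x : α) :
    IsDown (D.memberSubfamily x) := by
  intro A hA y
  rw [Finset.mem_memberSubfamily] at hA ⊢
  refine ⟨?_, fun h => hA.2 (Finset.mem_of_mem_erase h)⟩
  by_cases hxy : x = y
  · subst hxy
    rw [Finset.erase_eq_of_notMem hA.2]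
    exact hA.1
  · have := hD _ hA.1 y
    rwa [Finset.erase_insert_of_ne hxy] at this

theorem IsDown.member_subset {D : Finset (Finset α)} (hD : IsDown D) (x : α) :
    D.memberSubfamily x ⊆ D.nonMemberSubfamily x := by
  intro A hA
  rw [Finset.mem_memberSubfamily] at hA
  rw [Finset.mem_nonMemberSubfamily]
  have := hD _ hA.1 x
  rw [Finset.erase_insert hA.2] at this
  exact ⟨this, hA.2⟩

theorem iso_aux (S : Finset α) : ∀ D : Finset (Finset α), IsDown D → (∀ A ∈ D, A ⊆ S) →
    ∑ A ∈ D, A.card ≤ E D.card := by
  induction S using Finset.induction_on with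
  | empty =>
    intro D _ hS
    have : ∑ A ∈ D, A.card = 0 := by
      apply Finset.sum_eq_zero
      intro A hA
      have := hS A hA
      rw [Finset.subset_empty] at this
      simp [this]
    omega
  | insert x S hx ih =>
    intro D hD hS
    have h0 := ih _ (hD.nonMember x) (by
      intro A hA
      rw [Finset.mem_nonMemberSubfamily] at hA
      exact (Finset.subset_insert_iff_of_notMem hA.2).1 (hS A hA.1))
    have h1 := ih _ (hD.member x) (by
      intro A hA
      rw [Finset.mem_memberSubfamily] at hA
      have := (Finset.subset_insert x A).trans (hS _ hA.1)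
      exact (Finset.subset_insert_iff_of_notMem hA.2).1 this)
    have hc := Finset.card_memberSubfamily_add_card_nonMemberSubfamily x D
    have hle := Finset.card_le_card (hD.member_subset x)
    have hs := E_super (D.memberSubfamily x).card (D.nonMemberSubfamily x).card
    rw [hc, min_eq_left hle] at hs
    rw [sum_card_split D x]
    omega

theorem iso (D : Finset (Finset α)) (hD : IsDown D) : ∑ A ∈ D, A.card ≤ E D.card :=
  iso_aux (D.biUnion id) D hD (fun A hA _ hy => Finset.mem_biUnion.2 ⟨A, hA, hy⟩)

theorem IsDown.empty_mem {D : Finset (Finset α)} (hD : IsDown D) {A : Finset α} (hA : A ∈ D) :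
    ∅ ∈ D := by
  induction A using Finset.induction_on with
  | empty => exact hA
  | insert x A hx ih =>
    apply ih
    have := hD _ hA x
    rwa [Finset.erase_insert hx] at this

/-- Stability at powers of two. -/
theorem iso_stab (D : Finset (Finset α)) (hD : IsDown D) (K : ℕ) (hc : D.card = 2 ^ (K + 1)) :
    (∃ S : Finset α, D = S.powerset) ∨
      2 * ∑ A ∈ D, A.card + K ≤ (K + 1) * 2 ^ (K + 1) := by
  by_cases h : ∀ x ∈ D.biUnion id, ∀ A ∈ D, insert x A ∈ D
  · left
    refine ⟨D.biUnion id, ?_⟩
    have hne : D.Nonempty := by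
      rw [← Finset.card_pos, hc]; positivity
    obtain ⟨A0, hA0⟩ := hne
    ext A
    rw [Finset.mem_powerset]
    constructor
    · intro hA y hy
      exact Finset.mem_biUnion.2 ⟨A, hA, hy⟩
    · intro hA
      induction A using Finset.induction_on with
      | empty => exact hD.empty_mem hA0
      | insert x A hx ih =>
        exact h x (hA (Finset.mem_insert_self x A)) A
          (ih ((Finset.subset_insert x A).trans hA))
  · right
    push Not at h
    obtain ⟨x, hx, A, hA, hxA⟩ := h
    obtain ⟨B, hB, hxB⟩ := Finset.mem_biUnion.1 hx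
    replace hxB : x ∈ B := hxB
    have hxA' : x ∉ A := by
      intro h'
      rw [Finset.insert_eq_of_mem h'] at hxA
      exact hxA hA
    have hb : 1 ≤ (D.memberSubfamily x).card := by
      apply Finset.card_pos.2
      refine ⟨B.erase x, ?_⟩
      rw [Finset.mem_memberSubfamily, Finset.insert_erase hxB]
      exact ⟨hB, Finset.notMem_erase x B⟩
    have hlt : (D.memberSubfamily x).card < (D.nonMemberSubfamily x).card := by
      apply Finset.card_lt_card
      refine ⟨hD.member_subset x, fun hsub => ?_⟩
      have : A ∈ D.memberSubfamily x := hsub (Finset.mem_nonMemberSubfamily.2 ⟨hA, hxA'⟩)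
      exact hxA (Finset.mem_memberSubfamily.1 this).1
    have hcard := Finset.card_memberSubfamily_add_card_nonMemberSubfamily x D
    have h0 := iso _ (hD.nonMember x)
    have h1 := iso _ (hD.member x)
    rw [sum_card_split D x]
    rw [hc, pow_succ] at hcard
    set a := (D.nonMemberSubfamily x).card with ha
    set b := (D.memberSubfamily x).card with hb'
    obtain ⟨s, hs⟩ : ∃ s, a = 2 ^ K + s := ⟨a - 2 ^ K, by omega⟩
    have hs1 : 1 ≤ s := by omega
    have hs2 : s < 2 ^ K := by omega
    have hbs : b + s = 2 ^ K := by omega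
    have e1 := E_pow_add K s hs2.le
    have e2 := E_lt_pow K s hs1 hs2
    have e3 := E_lt_pow K b hb (by omega)
    rw [← hs] at e1
    rw [pow_succ]
    have e4 : K * b + K * s = K * 2 ^ K := by rw [← hbs]; ring
    nlinarith

end Pool.Agent.Lib.MP_24ae9b_co
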