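import Pool.Agent.Lib.MP_24ae9b_co.Iso

/-! Reimer's rising functions for union-closed families and the resulting total-size bounds. -/

namespace Pool.Agent.Lib.MP_24ae9b_co

open Finset

variable {α : Type*} [DecidableEq α]

/-- Reimer's rising map after treating the elements of `S`. -/
theorem rising (F : Finset (Finset α)) (hF : ∀ A ∈ F, ∀ B ∈ F, A ∪ B ∈ F) (S : Finset α) :
    ∃ f : Finset α → Finset α,
      (∀ A ∈ F, A ⊆ f A) ∧ (∀ A ∈ F, f A ⊆ A ∪ S) ∧
      (∀ A ∈ F, ∀ B ∈ F, f A ∪ B ∈ F.image f) ∧
      (∀ A ∈ F, ∀ D ∈ F, A ⊆ D → D ⊆ f A → A = D) ∧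
      (∀ A ∈ F, ∀ j ∈ S, insert j (f A) ∈ F.image f) := by
  induction S using Finset.induction_on with
  | empty =>
    refine ⟨id, ?_, ?_, ?_, ?_, ?_⟩
    · intro A _; exact subset_rfl
    · intro A _; simp
    · intro A hA B hB; simpa using hF A hA B hB
    · intro A _ D _ h1 h2; exact Finset.Subset.antisymm h1 h2
    · intro A _ j hj; simp at hj
  | insert i S hi ih =>
    obtain ⟨f, h1, h2, h3, h4, h5⟩ := ih
    set G := F.image f with hG
    let g : Finset α → Finset α := fun A => if insert i (f A) ∈ G then f A else insert i (f A)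
    have hα : ∀ X ∈ G, insert i X ∈ F.image g := by
      intro X hX
      by_cases h : insert i X ∈ G
      · obtain ⟨C, hC, hCX⟩ := Finset.mem_image.1 h
        refine Finset.mem_image.2 ⟨C, hC, ?_⟩
        have : insert i (f C) ∈ G := by rw [hCX, Finset.insert_idem]; exact h
        simp only [g, if_pos this, hCX]
      · obtain ⟨C, hC, hCX⟩ := Finset.mem_image.1 hX
        refine Finset.mem_image.2 ⟨C, hC, ?_⟩
        have : insert i (f C) ∉ G := by rw [hCX]; exact h
        simp only [g, if_neg this, hCX]
    have hβ : ∀ X ∈ G, insert i X ∈ G → X ∈ F.image g := by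
      intro X hX h
      obtain ⟨C, hC, hCX⟩ := Finset.mem_image.1 hX
      refine Finset.mem_image.2 ⟨C, hC, ?_⟩
      have : insert i (f C) ∈ G := by rw [hCX]; exact h
      simp only [g, if_pos this, hCX]
    have h3' : ∀ X ∈ G, ∀ B ∈ F, X ∪ B ∈ G := by
      intro X hX B hB
      obtain ⟨C, hC, rfl⟩ := Finset.mem_image.1 hX
      exact h3 C hC B hB
    have h5' : ∀ X ∈ G, ∀ j ∈ S, insert j X ∈ G := by
      intro X hX j hj
      obtain ⟨C, hC, rfl⟩ := Finset.mem_image.1 hX
      exact h5 C hC j hj
    have hfG : ∀ A ∈ F, f A ∈ G := fun A hA => Finset.mem_image_of_mem f hA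
    refine ⟨g, ?_, ?_, ?_, ?_, ?_⟩
    · intro A hA
      simp only [g]
      split_ifs
      · exact h1 A hA
      · exact (h1 A hA).trans (Finset.subset_insert _ _)
    · intro A hA
      have := h2 A hA
      simp only [g]
      split_ifs
      · intro x hx
        have := this hx
        simp only [Finset.mem_union, Finset.mem_insert] at this ⊢
        tauto
      · intro x hx
        rcases Finset.mem_insert.1 hx with rfl | hx
        · simp
        · have := this hx
          simp only [Finset.mem_union, Finset.mem_insert] at this ⊢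
          tauto
    · intro A hA B hB
      simp only [g]
      split_ifs with h
      · apply hβ _ (h3 A hA B hB)
        rw [← Finset.insert_union]
        exact h3' _ h B hB
      · rw [Finset.insert_union]
        exact hα _ (h3 A hA B hB)
    · intro A hA D hD hAD hDA
      simp only [g] at hDA
      split_ifs at hDA with h
      · exact h4 A hA D hD hAD hDA
      · by_cases hiD : i ∈ D
        · exfalso
          apply h
          have : f A ∪ D = insert i (f A) := by
            apply Finset.Subset.antisymm
            · exact Finset.union_subset (Finset.subset_insert _ _) hDA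
            · intro x hx
              rcases Finset.mem_insert.1 hx with rfl | hx
              · exact Finset.mem_union_right _ hiD
              · exact Finset.mem_union_left _ hx
          rw [← this]
          exact h3 A hA D hD
        · exact h4 A hA D hD hAD ((Finset.subset_insert_iff_of_notMem hiD).1 hDA)
    · intro A hA j hj
      rcases Finset.mem_insert.1 hj with rfl | hj
      · have : insert j (g A) = insert j (f A) := by
          simp only [g]
          split_ifs
          · rfl
          · exact Finset.insert_idem _ _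
        rw [this]
        exact hα _ (hfG A hA)
      · simp only [g]
        split_ifs with h
        · apply hβ _ (h5 A hA j hj)
          rw [Finset.insert_comm]
          exact h5' _ h j hj
        · rw [Finset.insert_comm]
          exact hα _ (h5 A hA j hj)

theorem biUnion_mem (F : Finset (Finset α)) (hF : ∀ A ∈ F, ∀ B ∈ F, A ∪ B ∈ F)
    (H : Finset (Finset α)) (hH : H.Nonempty) (hHF : H ⊆ F) : H.biUnion id ∈ F := by
  induction hH using Finset.Nonempty.cons_induction with
  | singleton A => simpa using hHF
  | cons A H hA hH ih =>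
    rw [Finset.cons_eq_insert] at hHF ⊢
    rw [Finset.biUnion_insert]
    exact hF _ (hHF (Finset.mem_insert_self _ _)) _
      (ih ((Finset.subset_insert _ _).trans hHF))

theorem two_pow_tangent (c d : ℕ) : (2 : ℤ) ^ c * ((d : ℤ) - c + 1) ≤ 2 ^ d := by
  rcases le_or_gt c d with h | h
  · obtain ⟨e, rfl⟩ := Nat.exists_eq_add_of_le h
    have : (e : ℤ) + 1 ≤ 2 ^ e := by
      have := @Nat.lt_two_pow_self e
      exact_mod_cast this
    rw [pow_add]
    push_cast
    have h2 : (0 : ℤ) < 2 ^ c := by positivity
    nlinarith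
  · have h1 : ((d : ℤ) - c + 1) ≤ 0 := by omega
    have h2 : (0 : ℤ) < 2 ^ c := by positivity
    have h3 : (0 : ℤ) < 2 ^ d := by positivity
    nlinarith

/-- The main combinatorial bound: either the average size is at least `n/2`, or the total size
lies above the chord through the two neighbouring conjectured extremal families. -/
theorem total_size_bound (F : Finset (Finset α)) (hF : ∀ A ∈ F, ∀ B ∈ F, A ∪ B ∈ F)
    (K t : ℕ) (ht : t < 2 ^ K) (hm : F.card = 2 ^ K + 1 + t) :
    (F.biUnion id).card * F.card ≤ 2 * ∑ A ∈ F, A.card ∨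
      2 * (F.biUnion id).card + K * 2 ^ K + (K + 2) * t ≤ 2 * ∑ A ∈ F, A.card := by
  set N := F.biUnion id with hN
  set n := N.card with hn
  have hne : F.Nonempty := by
    rw [← Finset.card_pos, hm]; positivity
  have hNF : N ∈ F := biUnion_mem F hF F hne subset_rfl
  have hsub : ∀ A ∈ F, A ⊆ N := fun A hA _ hy => Finset.mem_biUnion.2 ⟨A, hA, hy⟩
  obtain ⟨f, h1, h2, -, h4, h5⟩ := rising F hF N
  have h2' : ∀ A ∈ F, f A ⊆ N := by
    intro A hA
    have := h2 A hA
    rwa [Finset.union_eq_right.2 (hsub A hA)] at this
  have hdisj : ∀ A ∈ F, ∀ B ∈ F, ∀ C, A ⊆ C → C ⊆ f A → B ⊆ C → C ⊆ f B → A = B := by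
    intro A hA B hB C a1 a2 b1 b2
    have hD := hF A hA B hB
    have hC : A ∪ B ⊆ C := Finset.union_subset a1 b1
    have e1 := h4 A hA _ hD Finset.subset_union_left (hC.trans a2)
    have e2 := h4 B hB _ hD Finset.subset_union_right (hC.trans b2)
    rw [e1]; exact e2.symm
  have hinj : ∀ A ∈ F, ∀ B ∈ F, f A = f B → A = B := by
    intro A hA B hB h
    exact hdisj A hA B hB (f A) (h1 A hA) subset_rfl (h ▸ h1 B hB) (h ▸ subset_rfl)
  -- the down-set of complements
  set D := F.image (fun A => N \ f A) with hD
  have hcinj : ∀ A ∈ F, ∀ B ∈ F, N \ f A = N \ f B → A = B := by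
    intro A hA B hB h
    apply hinj A hA B hB
    rw [← Finset.sdiff_sdiff_eq_self (h2' A hA), h, Finset.sdiff_sdiff_eq_self (h2' B hB)]
  have hDcard : D.card = F.card := Finset.card_image_of_injOn (fun A hA B hB h => hcinj A hA B hB h)
  have hDdown : IsDown D := by
    intro X hX x
    obtain ⟨A, hA, rfl⟩ := Finset.mem_image.1 hX
    by_cases hx : x ∈ N
    · obtain ⟨C, hC, hCe⟩ := Finset.mem_image.1 (h5 A hA x hx)
      refine Finset.mem_image.2 ⟨C, hC, ?_⟩
      rw [hCe, Finset.sdiff_insert]
    · rw [Finset.erase_eq_of_notMem (fun h => hx (Finset.mem_sdiff.1 h).1)]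
      exact hX
  have hDsum : ∑ X ∈ D, X.card = ∑ A ∈ F, (N \ f A).card :=
    Finset.sum_image (fun A hA B hB h => hcinj A hA B hB h)
  -- size identity
  have hsize : ∑ A ∈ F, A.card + ∑ A ∈ F, (f A \ A).card + ∑ X ∈ D, X.card = n * F.card := by
    rw [hDsum, ← Finset.sum_add_distrib, ← Finset.sum_add_distrib, mul_comm, ← smul_eq_mul,
      ← Finset.sum_const]
    apply Finset.sum_congr rfl
    intro A hA
    have e1 := Finset.card_sdiff_add_card_eq_card (h1 A hA)
    have e2 := Finset.card_sdiff_add_card_eq_card (h2' A hA)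
    omega
  -- packing of the intervals
  have hpack : ∑ A ∈ F, 2 ^ (f A \ A).card ≤ 2 ^ n := by
    have e1 : ∑ A ∈ F, 2 ^ (f A \ A).card = (F.biUnion (fun A => Finset.Icc A (f A))).card := by
      rw [Finset.card_biUnion]
      · apply Finset.sum_congr rfl
        intro A hA
        rw [Finset.card_Icc_finset (h1 A hA), Finset.card_sdiff_of_subset (h1 A hA)]
      · intro A hA B hB hAB
        rw [Function.onFun, Finset.disjoint_left]
        intro C hCA hCB
        rw [Finset.mem_Icc] at hCA hCB
        exact hAB (hdisj A hA B hB C hCA.1 hCA.2 hCB.1 hCB.2)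
    rw [e1, hn, ← Finset.card_powerset]
    apply Finset.card_le_card
    intro C hC
    obtain ⟨A, hA, hCA⟩ := Finset.mem_biUnion.1 hC
    rw [Finset.mem_Icc] at hCA
    exact Finset.mem_powerset.2 (Finset.Subset.trans hCA.2 (h2' A hA))
  have hKn : K < n := by
    have e1 : F.card ≤ 2 ^ n := by
      rw [hn, ← Finset.card_powerset]
      exact Finset.card_le_card (fun A hA => Finset.mem_powerset.2 (hsub A hA))
    have : 2 ^ K < 2 ^ n := by omega
    exact (Nat.pow_lt_pow_iff_right (by norm_num)).1 this
  obtain ⟨c, hc⟩ : ∃ c, n = c + (K + 1) := ⟨n - (K + 1), by omega⟩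
  have hdN : (f N \ N).card = 0 := by
    rw [Finset.card_eq_zero, Finset.sdiff_eq_empty_iff_subset]
    exact h2' N hNF
  have hd : (∑ A ∈ F, (f A \ A).card : ℤ) + (2 ^ K + t) + 1 ≤ (2 ^ K + t) * c + 2 ^ (K + 1) := by
    have e1 := Finset.add_sum_erase F (fun A => 2 ^ (f A \ A).card) hNF
    have e2 := Finset.add_sum_erase F (fun A => ((f A \ A).card : ℤ)) hNF
    simp only [hdN, pow_zero, Nat.cast_zero, zero_add] at e1 e2
    have e3 : ∑ A ∈ F.erase N, (2 : ℤ) ^ c * (((f A \ A).card : ℤ) - c + 1)
        ≤ ∑ A ∈ F.erase N, (2 : ℤ) ^ (f A \ A).card :=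
      Finset.sum_le_sum (fun A _ => two_pow_tangent c _)
    have e4 : (1 : ℤ) + ∑ A ∈ F.erase N, (2 : ℤ) ^ (f A \ A).card ≤ 2 ^ n := by
      rw [← e1] at hpack
      exact_mod_cast hpack
    have e5 : ((F.erase N).card : ℤ) = 2 ^ K + t := by
      have := Finset.card_erase_add_one hNF
      have h' : (F.erase N).card = 2 ^ K + t := by omega
      rw [h']; push_cast; ring
    rw [← Finset.mul_sum, Finset.sum_add_distrib, Finset.sum_sub_distrib, e2] at e3
    simp only [Finset.sum_const, nsmul_eq_mul, mul_one, e5] at e3
    rw [hc, pow_add] at e4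
    have h2c : (0 : ℤ) < 2 ^ c := by positivity
    have e6 : (2 : ℤ) ^ c * ((∑ A ∈ F, ((f A \ A).card : ℤ)) - (2 ^ K + t) * c + (2 ^ K + t))
        < 2 ^ c * 2 ^ (K + 1) := by linarith
    have e7 := lt_of_mul_lt_mul_left e6 h2c.le
    linarith
  -- it suffices to bound the down-set
  have hmain : 2 * ∑ X ∈ D, X.card ≤ K * 2 ^ K + (K + 2) * t + 2 →
      2 * n + K * 2 ^ K + (K + 2) * t ≤ 2 * ∑ A ∈ F, A.card := by
    intro hb
    have hb' : 2 * (∑ X ∈ D, X.card : ℤ) ≤ K * 2 ^ K + (K + 2) * t + 2 := by exact_mod_cast hb
    have hs' : (∑ A ∈ F, A.card : ℤ) + (∑ A ∈ F, (f A \ A).card : ℤ) + (∑ X ∈ D, X.card : ℤ)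
        = (c + (K + 1)) * (2 ^ K + 1 + t) := by
      rw [hm, hc] at hsize
      exact_mod_cast hsize
    have goal : 2 * ((c : ℤ) + (K + 1)) + K * 2 ^ K + (K + 2) * t ≤ 2 * (∑ A ∈ F, A.card : ℤ) := by
      rw [pow_succ] at hd
      nlinarith
    rw [hc]
    exact_mod_cast goal
  rcases lt_or_ge (t + 1) (2 ^ K) with hlt | hge
  · right
    apply hmain
    have e0 := iso D hDdown
    have e1 := E_pow_add K (t + 1) hlt.le
    have e2 := E_lt_pow K (t + 1) (by omega) hlt
    rw [hDcard, hm, show 2 ^ K + 1 + t = 2 ^ K + (t + 1) by ring] at e0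
    nlinarith
  · have ht1 : t + 1 = 2 ^ K := by omega
    have hm2 : D.card = 2 ^ (K + 1) := by rw [hDcard, hm, pow_succ]; omega
    rcases iso_stab D hDdown K hm2 with ⟨S, hS⟩ | hb
    · left
      have hScard : F.card = 2 ^ S.card := by rw [← hDcard, hS, Finset.card_powerset]
      have hcS : ∀ A ∈ F, N \ f A ⊆ S := by
        intro A hA
        rw [← Finset.mem_powerset, ← hS]
        exact Finset.mem_image_of_mem _ hA
      have hSN : S ⊆ N := by
        have : S ∈ D := by rw [hS]; exact Finset.mem_powerset_self S
        obtain ⟨A, _, hAe⟩ := Finset.mem_image.1 this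
        rw [← hAe]
        exact Finset.sdiff_subset
      have hkey : ∀ A ∈ F, ∀ s ∈ S, s ∈ f A → s ∈ A := by
        intro A hA s hs hsf
        by_contra hsA
        have : insert s (N \ f A) ∈ D := by
          rw [hS, Finset.mem_powerset]
          exact Finset.insert_subset hs (hcS A hA)
        obtain ⟨B, hB, hBe⟩ := Finset.mem_image.1 this
        have hfB : f B = (f A).erase s := by
          have e1 : N \ f B = N \ (f A).erase s := by
            rw [Finset.sdiff_erase (hSN hs)]
            exact hBe
          rw [← Finset.sdiff_sdiff_eq_self (h2' B hB), e1,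
            Finset.sdiff_sdiff_eq_self ((Finset.erase_subset _ _).trans (h2' A hA))]
        have hAB : A = B := by
          apply hdisj A hA B hB (f B) _ _ (h1 B hB) subset_rfl
          · rw [hfB]
            intro y hy
            exact Finset.mem_erase.2 ⟨fun h => hsA (h ▸ hy), h1 A hA hy⟩
          · rw [hfB]; exact Finset.erase_subset _ _
        rw [← hAB] at hfB
        rw [hfB] at hsf
        exact Finset.notMem_erase s _ hsf
      have hproj : ∀ A ∈ F, ∀ B ∈ F, A ∩ S = B ∩ S → A = B := by
        intro A hA B hB h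
        have aux : ∀ A ∈ F, ∀ B ∈ F, A ∩ S = B ∩ S → N \ f A ⊆ N \ f B := by
          intro A hA B hB h y hy
          have hyS := hcS A hA hy
          rw [Finset.mem_sdiff] at hy ⊢
          refine ⟨hy.1, fun hyB => hy.2 (h1 A hA ?_)⟩
          have : y ∈ B ∩ S := Finset.mem_inter.2 ⟨hkey B hB y hyS hyB, hyS⟩
          rw [← h] at this
          exact (Finset.mem_inter.1 this).1
        exact hcinj A hA B hB (Finset.Subset.antisymm (aux A hA B hB h) (aux B hB A hA h.symm))
      have hdeg : ∀ x ∈ N, F.card ≤ 2 * (F.filter (fun A => x ∈ A)).card := by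
        intro x hx
        have hsplit := Finset.card_filter_add_card_filter_not (s := F) (fun A => x ∈ A)
        set H := F.filter (fun A => ¬ x ∈ A) with hH
        rcases H.eq_empty_or_nonempty with hE | hNe
        · rw [hE] at hsplit
          simp at hsplit
          omega
        · have hB : H.biUnion id ∈ F := biUnion_mem F hF H hNe (Finset.filter_subset _ _)
          have hxB : x ∉ H.biUnion id := by
            intro h
            obtain ⟨A, hA, hxA⟩ := Finset.mem_biUnion.1 h
            exact (Finset.mem_filter.1 hA).2 hxA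
          obtain ⟨s, hs, hsB⟩ : ∃ s ∈ S, s ∉ H.biUnion id := by
            by_contra hcon
            push Not at hcon
            have : H.biUnion id = N := by
              apply hproj _ hB _ hNF
              rw [Finset.inter_eq_right.2 hcon, Finset.inter_eq_right.2 hSN]
            rw [this] at hxB
            exact hxB hx
          have hHc : H.card ≤ (S.erase s).powerset.card := by
            apply Finset.card_le_card_of_injOn (fun A => A ∩ S)
            · intro A hA
              simp only [Finset.mem_coe, Finset.mem_powerset] at hA ⊢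
              intro y hy
              rw [Finset.mem_inter] at hy
              refine Finset.mem_erase.2 ⟨fun h => hsB ?_, hy.2⟩
              exact Finset.mem_biUnion.2 ⟨A, hA, h ▸ hy.1⟩
            · intro A hA B hB' h
              exact hproj A (Finset.mem_filter.1 hA).1 B (Finset.mem_filter.1 hB').1 h
          rw [Finset.card_powerset] at hHc
          have := Finset.card_erase_add_one hs
          rw [← this, pow_succ] at hScard
          omega
      have hdouble : ∑ A ∈ F, A.card = ∑ x ∈ N, (F.filter (fun A => x ∈ A)).card := by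
        simp only [Finset.card_filter]
        rw [Finset.sum_comm]
        apply Finset.sum_congr rfl
        intro A hA
        rw [← Finset.card_filter]
        congr 1
        ext y
        simp only [Finset.mem_filter]
        exact ⟨fun h => ⟨hsub A hA h, h⟩, fun h => h.2⟩
      rw [hdouble, Finset.mul_sum, hn, ← smul_eq_mul, ← Finset.sum_const]
      exact Finset.sum_le_sum hdeg
    · right
      apply hmain
      rw [pow_succ] at hb
      nlinarith

end Pool.Agent.Lib.MP_24ae9b_co
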