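import Pool.Agent.Lib.MP_24ae9b_co.TwoIso

/-! Isoperimetry for down-sets with prescribed support. -/

namespace Pool.Agent.Lib.MP_24ae9b_co

open Finset

theorem E_le_log (j w : ℕ) (h : w ≤ 2 ^ j) : 2 * E w ≤ j * w := by
  rcases Nat.eq_zero_or_pos w with rfl | hw
  · simp [E_zero]
  rcases h.eq_or_lt with rfl | h
  · have := E_pow_add j 0 (Nat.zero_le _)
    simp only [add_zero, mul_zero, E_zero] at this
    omega
  · have := E_lt_pow j w hw h
    omega

variable {α : Type*} [DecidableEq α]

theorem IsDown.subset_mem {D : Finset (Finset α)} (hD : IsDown D) {A : Finset α} (hA : A ∈ D)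
    {x : α} (hx : x ∈ A) : ({x} : Finset α) ∈ D := by
  induction A using Finset.induction_on with
  | empty => simp at hx
  | insert y A hy ih =>
    by_cases hxA : x ∈ A
    · apply ih _ hxA
      have := hD _ hA y
      rwa [Finset.erase_insert hy] at this
    · have hxy : x = y := by
        rcases Finset.mem_insert.1 hx with h | h
        · exact h
        · exact absurd h hxA
      subst hxy
      clear ih hx hxA
      induction A using Finset.induction_on with
      | empty => simpa using hA
      | insert z A hz ih =>
        have hzx : z ≠ x := fun h => hy (h ▸ Finset.mem_insert_self z A)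
        apply ih (fun h => hy (Finset.mem_insert_of_mem h))
        have := hD _ hA z
        rwa [Finset.insert_comm, Finset.erase_insert] at this
        simp [hz, hzx]

theorem IsDown.supp_lt_card {D : Finset (Finset α)} (hD : IsDown D) (hne : D.Nonempty) :
    (D.biUnion id).card + 1 ≤ D.card := by
  obtain ⟨A0, hA0⟩ := hne
  have h1 : insert ∅ ((D.biUnion id).image (fun x => ({x} : Finset α))) ⊆ D := by
    intro A hA
    rcases Finset.mem_insert.1 hA with rfl | hA
    · exact hD.empty_mem hA0
    · obtain ⟨x, hx, rfl⟩ := Finset.mem_image.1 hA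
      obtain ⟨B, hB, hxB⟩ := Finset.mem_biUnion.1 hx
      exact hD.subset_mem hB hxB
  have h2 := Finset.card_le_card h1
  rw [Finset.card_insert_of_notMem (by simp),
    Finset.card_image_of_injective _ Finset.singleton_injective] at h2
  exact h2

theorem sum_card_eq_deg (D : Finset (Finset α)) :
    ∑ A ∈ D, A.card = ∑ x ∈ D.biUnion id, (D.filter (fun A => x ∈ A)).card := by
  simp only [Finset.card_filter]
  rw [Finset.sum_comm]
  apply Finset.sum_congr rfl
  intro A hA
  rw [← Finset.card_filter]
  congr 1
  ext y
  simp only [Finset.mem_filter]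
  exact ⟨fun h => ⟨Finset.mem_biUnion.2 ⟨A, hA, h⟩, h⟩, fun h => h.2⟩

theorem card_member_eq (D : Finset (Finset α)) (x : α) :
    (D.memberSubfamily x).card = (D.filter (fun A => x ∈ A)).card := by
  have h1 := Finset.card_memberSubfamily_add_card_nonMemberSubfamily x D
  have h2 := Finset.card_filter_add_card_filter_not (s := D) (fun A => x ∈ A)
  unfold Finset.nonMemberSubfamily at h1
  omega

theorem iso_gen (r : ℕ) : ∀ D : Finset (Finset α), IsDown D → (D.biUnion id).card = r →
    ∀ j c u, j + c = r → D.card = u + c → 1 ≤ u → u ≤ 2 ^ j → ∑ A ∈ D, A.card ≤ E u + c := by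
  induction r with
  | zero =>
    intro D hD _ j c u h1 h2 _ _
    have hc : c = 0 := by omega
    subst hc
    have := iso D hD
    rwa [h2] at this
  | succ r ih =>
    intro D hD hs j c u h1 h2 h3 h4
    rcases c with _ | c
    · have := iso D hD
      rwa [h2] at this
    rcases c with _ | c
    · rcases h4.eq_or_lt with rfl | h4
      · have e0 := iso D hD
        have e1 := E_pow_add j 1 Nat.one_le_two_pow
        have e2 := E_pow_add j 0 (Nat.zero_le _)
        rw [h2] at e0
        simp only [add_zero, mul_zero, E_zero, E_one, zero_add] at e0 e1 e2 ⊢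
        omega
      · exact iso_supp j D hD (by omega) u h2 h4
    have hne : (D.biUnion id).Nonempty := by rw [← Finset.card_pos]; omega
    obtain ⟨x, hx, hmin⟩ := Finset.exists_min_image (D.biUnion id)
      (fun x => (D.filter (fun A => x ∈ A)).card) hne
    have havg : (r + 1) * (D.memberSubfamily x).card ≤ ∑ A ∈ D, A.card := by
      rw [sum_card_eq_deg, card_member_eq, ← hs, ← smul_eq_mul, ← Finset.sum_const]
      exact Finset.sum_le_sum hmin
    have hb : 1 ≤ (D.memberSubfamily x).card := by
      rw [card_member_eq]
      obtain ⟨B, hB, hxB⟩ := Finset.mem_biUnion.1 hx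
      exact Finset.card_pos.2 ⟨B, Finset.mem_filter.2 ⟨hB, hxB⟩⟩
    have hcard := Finset.card_memberSubfamily_add_card_nonMemberSubfamily x D
    have hle := Finset.card_le_card (hD.member_subset x)
    have e1 := iso _ (hD.member x)
    have hsupp : ((D.nonMemberSubfamily x).biUnion id).card = r := by
      rw [hD.supp_nonMember x]
      have := Finset.card_erase_add_one hx
      omega
    have ha := (hD.nonMember x).supp_lt_card (by rw [← Finset.card_pos]; omega)
    have ih0 := ih _ (hD.nonMember x) hsupp
    have hsplit := sum_card_split D x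
    obtain ⟨b, hb'⟩ : ∃ b, (D.memberSubfamily x).card = b + 1 :=
      ⟨(D.memberSubfamily x).card - 1, by omega⟩
    rw [hb'] at havg hcard hle e1 hsplit
    obtain ⟨v, rfl⟩ : ∃ v, u = v + (b + 1) := ⟨u - (b + 1), by omega⟩
    have hA := ih0 j (c + 1) (v + 1) (by omega) (by omega) (by omega) (by omega)
    rcases Nat.eq_zero_or_pos b with rfl | hbpos
    · simp only [zero_add, E_one] at e1 hsplit ⊢
      omega
    rcases lt_or_ge v (b + 1) with hv | hv
    · exfalso
      have f1 := E_le_log j (b + 1) (by omega)
      have f2 := E_le_log j (v + 1) (by omega)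
      have f3 : j * (v + 1) ≤ j * (b + 1) := Nat.mul_le_mul_left j (by omega)
      have f4 : (r + 1) * (b + 1) = j * (b + 1) + (c + 1) * b + c + b + 2 := by
        rw [← h1]; ring
      have f5 : c + 1 ≤ (c + 1) * b := Nat.le_mul_of_pos_right _ hbpos
      omega
    · obtain ⟨k, rfl⟩ : ∃ k, j = k + 1 := by
        rcases j with _ | k
        · simp at h4; omega
        · exact ⟨k, rfl⟩
      rw [pow_succ] at h4
      rcases le_or_gt v (2 ^ k) with h | h
      · have hB := ih0 k (c + 1 + 1) v (by omega) (by omega) (by omega) h
        have := E_super v (b + 1)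
        rw [min_eq_right hv] at this
        omega
      · obtain ⟨s, rfl⟩ : ∃ s, v = 2 ^ k + s := ⟨v - 2 ^ k, by omega⟩
        have g1 := E_pow_add k (s + 1) (by omega)
        have g2 := E_pow_add k (s + b + 1) (by omega)
        have g3 := E_merge s b
        rw [show 2 ^ k + (s + 1) = 2 ^ k + s + 1 by ring] at g1
        rw [show 2 ^ k + (s + b + 1) = 2 ^ k + s + (b + 1) by ring] at g2
        omega

end Pool.Agent.Lib.MP_24ae9b_co
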