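import Pool.Agent.Lib.MP_24ae9b_co.SepRise

/-! The lower bound for point-separating union-closed families. -/

namespace Pool.Agent.Lib.MP_24ae9b_co

open Finset

variable {α : Type*} [DecidableEq α]

theorem exists_low (N : Finset α) (ρ : α → ℕ) (Y : α → Finset α)
    (hY : ∀ x ∈ N, ∀ y ∈ Y x, y ∈ N ∧ ρ y < ρ x) (c : ℕ) : c ≤ N.card →
    ∃ C, C ⊆ N ∧ C.card = c ∧ 2 * ∑ x ∈ C, (Y x).card + c ≤ c * c ∧
      ∀ x ∈ C, ∀ y ∈ N, y ∉ C → ρ x ≤ ρ y := by
  induction c with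
  | zero => intro _; exact ⟨∅, by simp, rfl, by simp, by simp⟩
  | succ c ih =>
    intro hc
    obtain ⟨C, h1, h2, h3, h4⟩ := ih (by omega)
    have hne : (N \ C).Nonempty := by
      rw [← Finset.card_pos]
      have := Finset.card_sdiff_add_card_eq_card h1
      omega
    obtain ⟨x, hx, hmin⟩ := Finset.exists_min_image (N \ C) ρ hne
    rw [Finset.mem_sdiff] at hx
    have hYC : Y x ⊆ C := by
      intro y hy
      by_contra hyC
      have a1 := hY x hx.1 y hy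
      have a2 := hmin y (Finset.mem_sdiff.2 ⟨a1.1, hyC⟩)
      omega
    have hYc := Finset.card_le_card hYC
    refine ⟨insert x C, Finset.insert_subset hx.1 h1, by rw [Finset.card_insert_of_notMem hx.2, h2],
      ?_, ?_⟩
    · rw [Finset.sum_insert hx.2]
      nlinarith
    · intro z hz y hy hyC
      rw [Finset.mem_insert, not_or] at hyC
      rcases Finset.mem_insert.1 hz with rfl | hz
      · exact hmin y (Finset.mem_sdiff.2 ⟨hy, hyC.2⟩)
      · exact h4 z hz y hy hyC.2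

theorem sep_main (F : Finset (Finset α)) (hF : ∀ A ∈ F, ∀ B ∈ F, A ∪ B ∈ F)
    (hsep : ∀ x ∈ F.biUnion id, ∀ y ∈ F.biUnion id, x ≠ y → ∃ A ∈ F, ¬ (x ∈ A ↔ y ∈ A))
    (j c u : ℕ) (hnn : (F.biUnion id).card = j + c) (hm : F.card = u + c) (hu1 : 1 ≤ u)
    (hu : u ≤ 2 ^ j) (hcom : c = 0 ∨ ∀ x ∈ F.biUnion id, ∃ A ∈ F, x ∉ A) :
    2 * ((j + 1) * u) + 2 * ((j + c) * c) + c
      ≤ 2 * ∑ A ∈ F, A.card + 2 * 2 ^ j + 2 * E u + c * c := by
  set N := F.biUnion id with hN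
  set n := N.card with hn
  have hne : F.Nonempty := by
    rw [← Finset.card_pos, hm]; omega
  have hNF : N ∈ F := biUnion_mem F hF F hne subset_rfl
  have hsub : ∀ A ∈ F, A ⊆ N := fun A hA _ hy => Finset.mem_biUnion.2 ⟨A, hA, hy⟩
  let ρ : α → ℕ := fun x => (F.filter (fun A => x ∈ A)).card
  have hρ : ∀ x, ∀ M ∈ F, x ∉ M → (∀ B ∈ F, x ∉ B → B ⊆ M) →
      ∀ y ∈ N, y ≠ x → y ∉ M → ρ y < ρ x := by
    intro x M _ _ hmaxM y hy hyx hyM
    have key : ∀ A ∈ F, y ∈ A → x ∈ A := by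
      intro A hA hyA
      by_contra hxA
      exact hyM (hmaxM A hA hxA hyA)
    have hxN : x ∈ N := key N hNF hy
    obtain ⟨A, hA, hxy⟩ := hsep y hy x hxN hyx
    apply Finset.card_lt_card
    refine ⟨fun B hB => ?_, fun h => ?_⟩
    · rw [Finset.mem_filter] at hB ⊢
      exact ⟨hB.1, key B hB.1 hB.2⟩
    · apply hxy
      exact ⟨key A hA, fun hx => (Finset.mem_filter.1 (h (Finset.mem_filter.2 ⟨hA, hx⟩))).2⟩
  obtain ⟨f, h1, h2, -, h4, h5, h6⟩ := rising_ord F hF N hNF hsub ρ hρ N subset_rfl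
  let M : α → Finset α := fun x => (F.filter (fun A => x ∉ A)).biUnion id
  have hM2 : ∀ x, x ∉ M x := by
    intro x h
    obtain ⟨A, hA, hxA⟩ := Finset.mem_biUnion.1 h
    exact (Finset.mem_filter.1 hA).2 hxA
  have hM3 : ∀ x, ∀ B ∈ F, x ∉ B → B ⊆ M x := fun x B hB hx y hy =>
    Finset.mem_biUnion.2 ⟨B, Finset.mem_filter.2 ⟨hB, hx⟩, hy⟩
  have hM1 : ∀ x, (∃ A ∈ F, x ∉ A) → M x ∈ F := by
    rintro x ⟨A, hA, hx⟩
    exact biUnion_mem F hF _ ⟨A, Finset.mem_filter.2 ⟨hA, hx⟩⟩ (Finset.filter_subset _ _)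
  have hM4 : ∀ x ∈ N, M x ∈ F → x ∉ f (M x) := fun x hx hMx =>
    (h6 x (M x) hMx (hM2 x) (hM3 x)).2 hx (fun y hy _ _ => hy)
  have h2' : ∀ A ∈ F, f A ⊆ N := by
    intro A hA
    have := h2 A hA
    rwa [Finset.union_eq_right.2 (hsub A hA)] at this
  have hdisj : ∀ A ∈ F, ∀ B ∈ F, ∀ C, A ⊆ C → C ⊆ f A → B ⊆ C → C ⊆ f B → A = B := by
    intro A hA B hB C a1 a2 b1 b2
    have hD := hF A hA B hB
    have hC : A ∪ B ⊆ C := Finset.union_subset a1 b1
    have e1 := h4 A hA _ hD Finset.subset_union_left (hC.trans a2)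
    have e2 := h4 B hB _ hD Finset.subset_union_right (hC.trans b2)
    rw [e1]; exact e2.symm
  have hinj : ∀ A ∈ F, ∀ B ∈ F, f A = f B → A = B := by
    intro A hA B hB h
    exact hdisj A hA B hB (f A) (h1 A hA) subset_rfl (h ▸ h1 B hB) (h ▸ subset_rfl)
  -- the down-set of complements
  set D := F.image (fun A => N \ f A) with hD
  have hcinj : ∀ A ∈ F, ∀ B ∈ F, N \ f A = N \ f B → A = B := by
    intro A hA B hB h
    apply hinj A hA B hB
    rw [← Finset.sdiff_sdiff_eq_self (h2' A hA), h, Finset.sdiff_sdiff_eq_self (h2' B hB)]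
  have hDcard : D.card = F.card := Finset.card_image_of_injOn (fun A hA B hB h => hcinj A hA B hB h)
  have hDdown : IsDown D := by
    intro X hX x
    obtain ⟨A, hA, rfl⟩ := Finset.mem_image.1 hX
    by_cases hx : x ∈ N
    · obtain ⟨C, hC, hCe⟩ := Finset.mem_image.1 (h5 A hA x hx)
      refine Finset.mem_image.2 ⟨C, hC, ?_⟩
      rw [hCe, Finset.sdiff_insert]
    · rw [Finset.erase_eq_of_notMem (fun h => hx (Finset.mem_sdiff.1 h).1)]
      exact hX
  have hDsum : ∑ X ∈ D, X.card = ∑ A ∈ F, (N \ f A).card :=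
    Finset.sum_image (fun A hA B hB h => hcinj A hA B hB h)
  -- size identity
  have hsize : ∑ A ∈ F, A.card + ∑ A ∈ F, (f A \ A).card + ∑ X ∈ D, X.card = n * F.card := by
    rw [hDsum, ← Finset.sum_add_distrib, ← Finset.sum_add_distrib, mul_comm, ← smul_eq_mul,
      ← Finset.sum_const]
    apply Finset.sum_congr rfl
    intro A hA
    have e1 := Finset.card_sdiff_add_card_eq_card (h1 A hA)
    have e2 := Finset.card_sdiff_add_card_eq_card (h2' A hA)
    omega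
  -- packing of the intervals
  have hpack : ∑ A ∈ F, 2 ^ (f A \ A).card ≤ 2 ^ n := by
    have e1 : ∑ A ∈ F, 2 ^ (f A \ A).card = (F.biUnion (fun A => Finset.Icc A (f A))).card := by
      rw [Finset.card_biUnion]
      · apply Finset.sum_congr rfl
        intro A hA
        rw [Finset.card_Icc_finset (h1 A hA), Finset.card_sdiff_of_subset (h1 A hA)]
      · intro A hA B hB hAB
        rw [Function.onFun, Finset.disjoint_left]
        intro C hCA hCB
        rw [Finset.mem_Icc] at hCA hCB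
        exact hAB (hdisj A hA B hB C hCA.1 hCA.2 hCB.1 hCB.2)
    rw [e1, hn, ← Finset.card_powerset]
    apply Finset.card_le_card
    intro C hC
    obtain ⟨A, hA, hCA⟩ := Finset.mem_biUnion.1 hC
    rw [Finset.mem_Icc] at hCA
    exact Finset.mem_powerset.2 (Finset.Subset.trans hCA.2 (h2' A hA))
  have hdN : (f N \ N).card = 0 := by
    rw [Finset.card_eq_zero, Finset.sdiff_eq_empty_iff_subset]
    exact h2' N hNF
  have hDb : ∑ X ∈ D, X.card ≤ E u + c := by
    rcases hcom with rfl | hcom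
    · have := iso D hDdown
      rwa [hDcard, hm] at this
    · refine iso_gen (j + c) D hDdown ?_ j c u rfl (hDcard.trans hm) hu1 hu
      rw [← hnn, hn]
      congr 1
      apply Finset.Subset.antisymm
      · intro y hy
        obtain ⟨X, hX, hyX⟩ := Finset.mem_biUnion.1 hy
        obtain ⟨A, _, rfl⟩ := Finset.mem_image.1 hX
        exact (Finset.mem_sdiff.1 hyX).1
      · intro x hx
        have hMx := hM1 x (hcom x hx)
        exact Finset.mem_biUnion.2 ⟨N \ f (M x), Finset.mem_image_of_mem _ hMx,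
          Finset.mem_sdiff.2 ⟨hx, hM4 x hx hMx⟩⟩
  obtain ⟨C, hCN, hCc, hCM, hCs⟩ : ∃ C, C ⊆ N ∧ C.card = c ∧ (∀ x ∈ C, M x ∈ F) ∧
      2 * ∑ x ∈ C, (N.erase x \ M x).card + c ≤ c * c := by
    rcases hcom with rfl | hcom
    · exact ⟨∅, by simp, rfl, by simp, by simp⟩
    · obtain ⟨C, a1, a2, a3, -⟩ := exists_low N ρ (fun x => N.erase x \ M x) (by
        intro x hx y hy
        rw [Finset.mem_sdiff, Finset.mem_erase] at hy
        exact ⟨hy.1.2, hρ x _ (hM1 x (hcom x hx)) (hM2 x) (hM3 x) y hy.1.2 hy.1.1 hy.2⟩) c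
        (by omega)
      exact ⟨C, a1, a2, fun x hx => hM1 x (hcom x (a1 hx)), a3⟩
  have hMinj : Set.InjOn M C := by
    intro x hx y hy hxy
    by_contra hne'
    have a1 := hρ x _ (hCM x hx) (hM2 x) (hM3 x) y (hCN hy) (Ne.symm hne') (hxy ▸ hM2 y)
    have a2 := hρ y _ (hCM y hy) (hM2 y) (hM3 y) x (hCN hx) hne' (hxy ▸ hM2 x)
    omega
  have hNC : N ∉ C.image M := by
    intro h
    obtain ⟨x, hx, hxe⟩ := Finset.mem_image.1 h
    exact hM2 x (hxe ▸ hCN hx)
  set T := insert N (C.image M) with hT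
  have hTF : T ⊆ F := by
    apply Finset.insert_subset hNF
    intro A hA
    obtain ⟨x, hx, rfl⟩ := Finset.mem_image.1 hA
    exact hCM x hx
  have hTc : T.card = c + 1 := by
    rw [hT, Finset.card_insert_of_notMem hNC, Finset.card_image_of_injOn hMinj, hCc]
  have hRc := Finset.card_sdiff_add_card_eq_card hTF
  obtain ⟨v, rfl⟩ : ∃ v, u = v + 1 := ⟨u - 1, by omega⟩
  have hRc' : (F \ T).card = v := by omega
  have hdT : ∑ A ∈ T, (f A \ A).card ≤ ∑ x ∈ C, (N.erase x \ M x).card := by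
    rw [hT, Finset.sum_insert hNC, hdN, zero_add, Finset.sum_image hMinj]
    apply Finset.sum_le_sum
    intro x hx
    apply Finset.card_le_card
    apply Finset.sdiff_subset_sdiff _ subset_rfl
    intro y hy
    exact Finset.mem_erase.2 ⟨fun h => hM4 x (hCN hx) (hCM x hx) (h ▸ hy), h2' _ (hCM x hx) hy⟩
  have hdsplit := Finset.sum_sdiff (f := fun A => (f A \ A).card) hTF
  have hNR : N ∉ F \ T := fun h => (Finset.mem_sdiff.1 h).2 (Finset.mem_insert_self _ _)
  have hpack' : 1 + ∑ A ∈ F \ T, 2 ^ (f A \ A).card ≤ 2 ^ n := by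
    have e1 := Finset.sum_le_sum_of_subset (f := fun A => 2 ^ (f A \ A).card)
      (Finset.insert_subset hNF (Finset.sdiff_subset (t := T)))
    rw [Finset.sum_insert hNR, hdN, pow_zero] at e1
    exact e1.trans hpack
  have hd : (∑ A ∈ F \ T, (f A \ A).card : ℤ) + v + 1 ≤ v * c + 2 ^ j := by
    have e3 : ∑ A ∈ F \ T, (2 : ℤ) ^ c * (((f A \ A).card : ℤ) - c + 1)
        ≤ ∑ A ∈ F \ T, (2 : ℤ) ^ (f A \ A).card :=
      Finset.sum_le_sum (fun A _ => two_pow_tangent c _)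
    have e4 : (1 : ℤ) + ∑ A ∈ F \ T, (2 : ℤ) ^ (f A \ A).card ≤ 2 ^ n := by
      exact_mod_cast hpack'
    rw [← Finset.mul_sum, Finset.sum_add_distrib, Finset.sum_sub_distrib] at e3
    simp only [Finset.sum_const, nsmul_eq_mul, mul_one, hRc'] at e3
    rw [hnn, pow_add] at e4
    have h2c : (0 : ℤ) < 2 ^ c := by positivity
    have e6 : (2 : ℤ) ^ c * ((∑ A ∈ F \ T, ((f A \ A).card : ℤ)) - v * c + v)
        < 2 ^ c * 2 ^ j := by linarith
    have e7 := lt_of_mul_lt_mul_left e6 h2c.le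
    linarith
  have hd' : ∑ A ∈ F \ T, (f A \ A).card + v + 1 ≤ v * c + 2 ^ j := by exact_mod_cast hd
  rw [hnn, hm] at hsize
  have r2 : (j + c) * (v + 1 + c) + (v + 1) = (j + 1) * (v + 1) + (j + c) * c + v * c + c := by
    ring
  omega

theorem sep_lower_aux (F : Finset (Finset α)) (hF : ∀ A ∈ F, ∀ B ∈ F, A ∪ B ∈ F)
    (hsep : ∀ x ∈ F.biUnion id, ∀ y ∈ F.biUnion id, x ≠ y → ∃ A ∈ F, ¬ (x ∈ A ↔ y ∈ A))
    (j c u : ℕ) (hnn : (F.biUnion id).card = j + c) (hm : F.card = u + c) (hu1 : 1 ≤ u)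
    (hu : u ≤ 2 ^ j) (hu2 : c = 0 ∨ u < 2 ^ j) :
    2 * ((j + 1) * u) + 2 * ((j + c) * c) + c
      ≤ 2 * ∑ A ∈ F, A.card + 2 * 2 ^ j + 2 * E u + c * c := by
  by_cases hcom : c = 0 ∨ ∀ x ∈ F.biUnion id, ∃ A ∈ F, x ∉ A
  · exact sep_main F hF hsep j c u hnn hm hu1 hu hcom
  push Not at hcom
  obtain ⟨hc, x, hx, hall⟩ := hcom
  obtain ⟨d, rfl⟩ : ∃ d, c = d + 1 := ⟨c - 1, by omega⟩
  have hlt : u < 2 ^ j := hu2.resolve_left hc
  have hinj : Set.InjOn (fun A : Finset α => A.erase x) F := by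
    intro A hA B hB h
    have h' : A.erase x = B.erase x := h
    rw [← Finset.insert_erase (hall A hA), h', Finset.insert_erase (hall B hB)]
  set G := F.image (fun A => A.erase x) with hG
  have hGc : G.card = F.card := Finset.card_image_of_injOn hinj
  have hGu : ∀ A ∈ G, ∀ B ∈ G, A ∪ B ∈ G := by
    intro A hA B hB
    obtain ⟨A', hA', rfl⟩ := Finset.mem_image.1 hA
    obtain ⟨B', hB', rfl⟩ := Finset.mem_image.1 hB
    exact Finset.mem_image.2 ⟨A' ∪ B', hF _ hA' _ hB', Finset.erase_union_distrib _ _ _⟩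
  have hGN : G.biUnion id = (F.biUnion id).erase x := by
    ext y
    simp only [hG, Finset.mem_biUnion, Finset.mem_image, Finset.mem_erase, id]
    constructor
    · rintro ⟨_, ⟨A, hA, rfl⟩, hy⟩
      rw [Finset.mem_erase] at hy
      exact ⟨hy.1, A, hA, hy.2⟩
    · rintro ⟨h, A, hA, hy⟩
      exact ⟨_, ⟨A, hA, rfl⟩, Finset.mem_erase.2 ⟨h, hy⟩⟩
  have hGsep : ∀ y ∈ G.biUnion id, ∀ z ∈ G.biUnion id, y ≠ z → ∃ A ∈ G, ¬ (y ∈ A ↔ z ∈ A) := by
    intro y hy z hz hyz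
    rw [hGN, Finset.mem_erase] at hy hz
    obtain ⟨A, hA, h⟩ := hsep y hy.2 z hz.2 hyz
    refine ⟨_, Finset.mem_image_of_mem _ hA, ?_⟩
    simpa [Finset.mem_erase, hy.1, hz.1] using h
  have hGcom : ∀ y ∈ G.biUnion id, ∃ A ∈ G, y ∉ A := by
    intro y hy
    rw [hGN, Finset.mem_erase] at hy
    obtain ⟨A, hA, h⟩ := hsep y hy.2 x hx hy.1
    refine ⟨_, Finset.mem_image_of_mem _ hA, fun hyA => h ?_⟩
    exact ⟨fun _ => hall A hA, fun _ => Finset.mem_of_mem_erase hyA⟩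
  have hcard := Finset.card_erase_add_one hx
  have key := sep_main G hGu hGsep j d (u + 1) (by rw [hGN]; omega) (by omega) (by omega) hlt
    (Or.inr hGcom)
  have hsum : ∑ A ∈ G, A.card + F.card = ∑ A ∈ F, A.card := by
    rw [hG, Finset.sum_image hinj, Finset.card_eq_sum_ones F, ← Finset.sum_add_distrib]
    exact Finset.sum_congr rfl fun A hA => Finset.card_erase_add_one (hall A hA)
  have hs := E_succ_le u
  nlinarith

theorem sep_lower (F : Finset (Finset α)) (hF : ∀ A ∈ F, ∀ B ∈ F, A ∪ B ∈ F)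
    (hsep : ∀ x ∈ F.biUnion id, ∀ y ∈ F.biUnion id, x ≠ y → ∃ A ∈ F, ¬ (x ∈ A ↔ y ∈ A))
    (K t c : ℕ) (ht : t ≤ 2 ^ K) (hm : F.card = 2 ^ K + t + c)
    (hnn : (F.biUnion id).card = K + 1 + c) :
    K * 2 ^ K + 2 * ((K + 1) * t) + 2 * ((K + 1 + c) * c) + c
      ≤ 2 * ∑ A ∈ F, A.card + 2 * E t + c * c := by
  have hp : 1 ≤ 2 ^ K := Nat.one_le_two_pow
  have hE := E_pow_add K t ht
  by_cases h : c = 0 ∨ t < 2 ^ K
  · have := sep_lower_aux F hF hsep (K + 1) c (2 ^ K + t) hnn hm (by omega)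
      (by rw [pow_succ]; omega) (by rw [pow_succ]; omega)
    rw [pow_succ] at this
    nlinarith
  · push Not at h
    obtain ⟨d, rfl⟩ : ∃ d, c = d + 1 := ⟨c - 1, by omega⟩
    have e : t = 2 ^ K := by omega
    subst e
    have := sep_lower_aux F hF hsep (K + 1 + 1) d (2 ^ (K + 1) + 1) (by omega)
      (by rw [pow_succ]; omega) (by omega)
      (by rw [pow_succ, pow_succ]; omega) (Or.inr (by rw [pow_succ, pow_succ]; omega))
    have e1 := E_pow_add (K + 1) 1 Nat.one_le_two_pow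
    have e2 := E_pow_add K 0 (Nat.zero_le _)
    simp only [E_one, E_zero, add_zero, mul_zero] at e1 e2
    simp only [pow_succ] at this e1
    nlinarith

end Pool.Agent.Lib.MP_24ae9b_co
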