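import Pool.Agent.Lib.MP_24ae9b_co.SepIso

/-! Reimer's rising map in order of increasing rank. -/

namespace Pool.Agent.Lib.MP_24ae9b_co

open Finset

variable {α : Type*} [DecidableEq α]

theorem rising_ord (F : Finset (Finset α)) (hF : ∀ A ∈ F, ∀ B ∈ F, A ∪ B ∈ F) (N : Finset α)
    (hNF : N ∈ F) (hsub : ∀ A ∈ F, A ⊆ N) (ρ : α → ℕ)
    (hρ : ∀ x, ∀ M ∈ F, x ∉ M → (∀ B ∈ F, x ∉ B → B ⊆ M) → ∀ y ∈ N, y ≠ x → y ∉ M → ρ y < ρ x)
    (S : Finset α) : S ⊆ N →
    ∃ f : Finset α → Finset α,
      (∀ A ∈ F, A ⊆ f A) ∧ (∀ A ∈ F, f A ⊆ A ∪ S) ∧
      (∀ A ∈ F, ∀ B ∈ F, f A ∪ B ∈ F.image f) ∧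
      (∀ A ∈ F, ∀ D ∈ F, A ⊆ D → D ⊆ f A → A = D) ∧
      (∀ A ∈ F, ∀ j ∈ S, insert j (f A) ∈ F.image f) ∧
      (∀ x, ∀ M ∈ F, x ∉ M → (∀ B ∈ F, x ∉ B → B ⊆ M) →
        (x ∉ S → f M = M ∪ S) ∧ (x ∈ S → (∀ y ∈ N, y ≠ x → y ∉ M → y ∈ S) → x ∉ f M)) := by
  induction S using Finset.induction_on_max_value ρ with
  | empty =>
    intro _
    refine ⟨id, ?_, ?_, ?_, ?_, ?_, ?_⟩
    · intro A _; exact subset_rfl
    · intro A _; simp
    · intro A hA B hB; simpa using hF A hA B hB
    · intro A _ D _ h1 h2; exact Finset.Subset.antisymm h1 h2
    · intro A _ j hj; simp at hj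
    · intro x M _ _ _; simp
  | insert i S hi hmax ih =>
    intro hSN
    have hSN' : S ⊆ N := (Finset.subset_insert i S).trans hSN
    have hiN : i ∈ N := hSN (Finset.mem_insert_self i S)
    obtain ⟨f, h1, h2, h3, h4, h5, h6⟩ := ih hSN'
    set G := F.image f with hG
    let g : Finset α → Finset α := fun A => if insert i (f A) ∈ G then f A else insert i (f A)
    have hα : ∀ X ∈ G, insert i X ∈ F.image g := by
      intro X hX
      by_cases h : insert i X ∈ G
      · obtain ⟨C, hC, hCX⟩ := Finset.mem_image.1 h
        refine Finset.mem_image.2 ⟨C, hC, ?_⟩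
        have : insert i (f C) ∈ G := by rw [hCX, Finset.insert_idem]; exact h
        simp only [g, if_pos this, hCX]
      · obtain ⟨C, hC, hCX⟩ := Finset.mem_image.1 hX
        refine Finset.mem_image.2 ⟨C, hC, ?_⟩
        have : insert i (f C) ∉ G := by rw [hCX]; exact h
        simp only [g, if_neg this, hCX]
    have hβ : ∀ X ∈ G, insert i X ∈ G → X ∈ F.image g := by
      intro X hX h
      obtain ⟨C, hC, hCX⟩ := Finset.mem_image.1 hX
      refine Finset.mem_image.2 ⟨C, hC, ?_⟩
      have : insert i (f C) ∈ G := by rw [hCX]; exact h
      simp only [g, if_pos this, hCX]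
    have h3' : ∀ X ∈ G, ∀ B ∈ F, X ∪ B ∈ G := by
      intro X hX B hB
      obtain ⟨C, hC, rfl⟩ := Finset.mem_image.1 hX
      exact h3 C hC B hB
    have h5' : ∀ X ∈ G, ∀ j ∈ S, insert j X ∈ G := by
      intro X hX j hj
      obtain ⟨C, hC, rfl⟩ := Finset.mem_image.1 hX
      exact h5 C hC j hj
    have hfG : ∀ A ∈ F, f A ∈ G := fun A hA => Finset.mem_image_of_mem f hA
    refine ⟨g, ?_, ?_, ?_, ?_, ?_, ?_⟩
    · intro A hA
      simp only [g]
      split_ifs
      · exact h1 A hA
      · exact (h1 A hA).trans (Finset.subset_insert _ _)
    · intro A hA
      have := h2 A hA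
      simp only [g]
      split_ifs
      · intro x hx
        have := this hx
        simp only [Finset.mem_union, Finset.mem_insert] at this ⊢
        tauto
      · intro x hx
        rcases Finset.mem_insert.1 hx with rfl | hx
        · simp
        · have := this hx
          simp only [Finset.mem_union, Finset.mem_insert] at this ⊢
          tauto
    · intro A hA B hB
      simp only [g]
      split_ifs with h
      · apply hβ _ (h3 A hA B hB)
        rw [← Finset.insert_union]
        exact h3' _ h B hB
      · rw [Finset.insert_union]
        exact hα _ (h3 A hA B hB)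
    · intro A hA D hD hAD hDA
      simp only [g] at hDA
      split_ifs at hDA with h
      · exact h4 A hA D hD hAD hDA
      · by_cases hiD : i ∈ D
        · exfalso
          apply h
          have : f A ∪ D = insert i (f A) := by
            apply Finset.Subset.antisymm
            · exact Finset.union_subset (Finset.subset_insert _ _) hDA
            · intro x hx
              rcases Finset.mem_insert.1 hx with rfl | hx
              · exact Finset.mem_union_right _ hiD
              · exact Finset.mem_union_left _ hx
          rw [← this]
          exact h3 A hA D hD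
        · exact h4 A hA D hD hAD ((Finset.subset_insert_iff_of_notMem hiD).1 hDA)
    · intro A hA j hj
      rcases Finset.mem_insert.1 hj with rfl | hj
      · have : insert j (g A) = insert j (f A) := by
          simp only [g]
          split_ifs
          · rfl
          · exact Finset.insert_idem _ _
        rw [this]
        exact hα _ (hfG A hA)
      · simp only [g]
        split_ifs with h
        · apply hβ _ (h5 A hA j hj)
          rw [Finset.insert_comm]
          exact h5' _ h j hj
        · rw [Finset.insert_comm]
          exact hα _ (h5 A hA j hj)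
    · intro x M hM hxM hmaxM
      obtain ⟨k1, k2⟩ := h6 x M hM hxM hmaxM
      constructor
      · intro hx
        rw [Finset.mem_insert, not_or] at hx
        have e := k1 hx.2
        have e' : insert i (f M) = M ∪ insert i S := by rw [e, Finset.union_insert]
        simp only [g]
        split_ifs with h
        · obtain ⟨B, hB, hBe⟩ := Finset.mem_image.1 h
          have hxB : x ∉ B := by
            intro hxB
            have := h1 B hB hxB
            rw [hBe, e'] at this
            simp only [Finset.mem_union, Finset.mem_insert] at this
            tauto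
          have hBM : B = M := h4 B hB M hM (hmaxM B hB hxB) (by
            rw [hBe]; exact (h1 M hM).trans (Finset.subset_insert _ _))
          rw [hBM] at hBe
          rw [hBe, e']
        · exact e'
      · intro hx hY
        rcases Finset.mem_insert.1 hx with rfl | hx
        · have e := k1 hi
          have hN : insert x (f M) = N := by
            rw [e]
            apply Finset.Subset.antisymm
            · exact Finset.insert_subset hiN (Finset.union_subset (hsub M hM) hSN')
            · intro y hy
              by_cases hyx : y = x
              · rw [hyx]; exact Finset.mem_insert_self _ _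
              · by_cases hyM : y ∈ M
                · exact Finset.mem_insert_of_mem (Finset.mem_union_left _ hyM)
                · rcases Finset.mem_insert.1 (hY y hy hyx hyM) with h | h
                  · exact absurd h hyx
                  · exact Finset.mem_insert_of_mem (Finset.mem_union_right _ h)
          have hfN : f N = N := Finset.Subset.antisymm
            ((h2 N hNF).trans (Finset.union_subset subset_rfl hSN')) (h1 N hNF)
          have : insert x (f M) ∈ G := by
            rw [hN, ← hfN]; exact hfG N hNF
          simp only [g, if_pos this]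
          rw [e]
          simp [hxM, hi]
        · have hxi : x ≠ i := fun h => hi (h ▸ hx)
          have := k2 hx (fun y hy hyx hyM => by
            rcases Finset.mem_insert.1 (hY y hy hyx hyM) with h | h
            · have a1 := hρ x M hM hxM hmaxM y hy hyx hyM
              have a2 := hmax x hx
              rw [h] at a1
              omega
            · exact h)
          simp only [g]
          split_ifs
          · exact this
          · simp [hxi, this]

end Pool.Agent.Lib.MP_24ae9b_co
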