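import Pool.Agent.Lib.MP_24ae9b_co.TwoUpper

/-! The extremal point-separating families. -/

namespace Pool.Agent.Lib.MP_24ae9b_co

open Finset

theorem sep_base (K t : ℕ) (ht1 : 1 ≤ t) (ht : t ≤ 2 ^ K) :
    ∃ F : Finset (Finset ℕ), (∀ A ∈ F, ∀ B ∈ F, A ∪ B ∈ F) ∧ F.card = 2 ^ K + t ∧
      (∀ A ∈ F, A ⊆ Finset.range (K + 1)) ∧ Finset.range (K + 1) ∈ F ∧
      (∀ x < K + 1, ∀ y < K + 1, x ≠ y → ∃ A ∈ F, ¬ (x ∈ A ↔ y ∈ A)) ∧
      2 * ∑ A ∈ F, A.card + 2 * E t = K * 2 ^ K + 2 * ((K + 1) * t) := by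
  obtain ⟨D, h1, h2, h3, h4⟩ := down_exists K t ht
  set R := Finset.range K with hR
  have hKR : K ∉ R := by simp [hR]
  have hK : ∀ B : Finset ℕ, K ∉ R \ B := fun B h => hKR (Finset.mem_sdiff.1 h).1
  set U := D.image (fun B => insert K (R \ B)) with hU
  have hinj : Set.InjOn (fun B : Finset ℕ => insert K (R \ B)) D := by
    intro A hA B hB hAB
    have := congrArg (fun X => Finset.erase X K) hAB
    simp only [Finset.erase_insert (hK A), Finset.erase_insert (hK B)] at this
    rw [← Finset.sdiff_sdiff_eq_self (h1 A hA), this, Finset.sdiff_sdiff_eq_self (h1 B hB)]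
  have hdis : Disjoint R.powerset U := by
    rw [Finset.disjoint_left]
    intro A hA hA'
    obtain ⟨B, _, rfl⟩ := Finset.mem_image.1 hA'
    exact hKR (Finset.mem_powerset.1 hA (Finset.mem_insert_self K _))
  have hsub : ∀ A ∈ R.powerset ∪ U, A ⊆ Finset.range (K + 1) := by
    intro A hA
    rw [Finset.range_add_one]
    rcases Finset.mem_union.1 hA with hA | hA
    · exact (Finset.mem_powerset.1 hA).trans (Finset.subset_insert _ _)
    · obtain ⟨B, _, rfl⟩ := Finset.mem_image.1 hA
      exact Finset.insert_subset_insert K Finset.sdiff_subset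
  have hUA : ∀ B ∈ D, ∀ A, A ⊆ insert K R → insert K (R \ B) ∪ A ∈ U := by
    intro B hB A hA
    refine Finset.mem_image.2 ⟨B \ A, h2 B hB _ Finset.sdiff_subset, ?_⟩
    ext y
    have := @hA y
    simp only [Finset.mem_insert, Finset.mem_sdiff, Finset.mem_union] at this ⊢
    tauto
  have hcl : ∀ A ∈ R.powerset ∪ U, ∀ B ∈ R.powerset ∪ U, A ∪ B ∈ R.powerset ∪ U := by
    intro A hA B hB
    have hA' := hsub A hA
    have hB' := hsub B hB
    rw [Finset.range_add_one] at hA' hB'
    rcases Finset.mem_union.1 hA with hA | hA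
    · rcases Finset.mem_union.1 hB with hB | hB
      · exact Finset.mem_union_left _ (Finset.mem_powerset.2
          (Finset.union_subset (Finset.mem_powerset.1 hA) (Finset.mem_powerset.1 hB)))
      · obtain ⟨C, hC, rfl⟩ := Finset.mem_image.1 hB
        rw [Finset.union_comm A]
        exact Finset.mem_union_right _ (hUA C hC A hA')
    · obtain ⟨C, hC, rfl⟩ := Finset.mem_image.1 hA
      exact Finset.mem_union_right _ (hUA C hC B hB')
  refine ⟨R.powerset ∪ U, hcl, ?_, hsub, ?_, ?_, ?_⟩
  · rw [Finset.card_union_of_disjoint hdis,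
      Finset.card_image_of_injOn hinj, Finset.card_powerset, hR, Finset.card_range, h3]
  · obtain ⟨A, hA⟩ : D.Nonempty := by rw [← Finset.card_pos]; omega
    refine Finset.mem_union_right _ (Finset.mem_image.2 ⟨∅, h2 A hA _ (Finset.empty_subset _), ?_⟩)
    rw [Finset.sdiff_empty, Finset.range_add_one]
  · intro x hx y hy hxy
    by_cases h : x < K
    · exact ⟨{x}, Finset.mem_union_left _ (by simpa [hR] using h), by simpa using hxy.symm⟩
    · exact ⟨{y}, Finset.mem_union_left _ (by simpa [hR] using (by omega : y < K)),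
        by simpa using hxy⟩
  · rw [Finset.sum_union hdis, Finset.sum_image hinj]
    have e1 := two_sum_powerset R
    have hRc : R.card = K := Finset.card_range K
    rw [hRc] at e1
    have e2 : ∑ B ∈ D, (insert K (R \ B)).card + ∑ B ∈ D, B.card = (K + 1) * t := by
      rw [← Finset.sum_add_distrib, ← h3, mul_comm, ← smul_eq_mul, ← Finset.sum_const]
      apply Finset.sum_congr rfl
      intro B hB
      rw [Finset.card_insert_of_notMem (hK B)]
      have := Finset.card_sdiff_add_card_eq_card (h1 B hB)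
      omega
    omega

theorem sep_upper (K t : ℕ) (ht1 : 1 ≤ t) (ht : t ≤ 2 ^ K) (c : ℕ) :
    ∃ F : Finset (Finset ℕ), (∀ A ∈ F, ∀ B ∈ F, A ∪ B ∈ F) ∧ F.card = 2 ^ K + t + c ∧
      (∀ A ∈ F, A ⊆ Finset.range (K + 1 + c)) ∧ Finset.range (K + 1 + c) ∈ F ∧
      (∀ x < K + 1 + c, ∀ y < K + 1 + c, x ≠ y → ∃ A ∈ F, ¬ (x ∈ A ↔ y ∈ A)) ∧
      2 * ∑ A ∈ F, A.card + 2 * E t + c * c
        = K * 2 ^ K + 2 * ((K + 1) * t) + 2 * ((K + 1 + c) * c) + c := by
  induction c with
  | zero => simpa using sep_base K t ht1 ht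
  | succ c ih =>
    obtain ⟨F, h1, h2, h3, h4, h5, h6⟩ := ih
    have hs : ∀ A ∈ F, A ⊆ Finset.range (K + 1 + (c + 1)) :=
      fun A hA => (h3 A hA).trans (Finset.range_subset_range.2 (by omega))
    have hnot : Finset.range (K + 1 + (c + 1)) ∉ F := by
      intro h
      have := Finset.range_subset_range.1 (h3 _ h)
      omega
    refine ⟨insert (Finset.range (K + 1 + (c + 1))) F, ?_, ?_, ?_, Finset.mem_insert_self _ _,
      ?_, ?_⟩
    · intro A hA B hB
      rcases Finset.mem_insert.1 hA with rfl | hA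
      · rcases Finset.mem_insert.1 hB with rfl | hB
        · simp
        · rw [Finset.union_eq_left.2 (hs B hB)]
          exact Finset.mem_insert_self _ _
      · rcases Finset.mem_insert.1 hB with rfl | hB
        · rw [Finset.union_eq_right.2 (hs A hA)]
          exact Finset.mem_insert_self _ _
        · exact Finset.mem_insert_of_mem (h1 A hA B hB)
    · rw [Finset.card_insert_of_notMem hnot, h2]; ring
    · intro A hA
      rcases Finset.mem_insert.1 hA with rfl | hA
      · exact subset_rfl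
      · exact hs A hA
    · intro x hx y hy hxy
      by_cases h : x < K + 1 + c ∧ y < K + 1 + c
      · obtain ⟨A, hA, e⟩ := h5 x h.1 y h.2 hxy
        exact ⟨A, Finset.mem_insert_of_mem hA, e⟩
      · refine ⟨_, Finset.mem_insert_of_mem h4, ?_⟩
        simp only [Finset.mem_range]
        omega
    · rw [Finset.sum_insert hnot, Finset.card_range]
      nlinarith

end Pool.Agent.Lib.MP_24ae9b_co
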