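import Pool.Agent.Lib.MP_24ae9b_co.Reimer

/-! Isoperimetry for down-sets with large support, and the two-parameter lower bound. -/

namespace Pool.Agent.Lib.MP_24ae9b_co

open Finset

theorem E_succ_le (b : ℕ) : E (b + 1) ≤ E b + b := by
  induction b using Nat.strong_induction_on with
  | _ b ih =>
    rcases Nat.even_or_odd' b with ⟨v, rfl | rfl⟩
    · rcases Nat.eq_zero_or_pos v with rfl | hv
      · simp [E_zero, E_one]
      · have := ih v (by omega)
        rw [E_odd, E_even]; omega
    · have := ih v (by omega)
      have e : 2 * v + 1 + 1 = 2 * (v + 1) := by ring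
      rw [e, E_even, E_odd]; omega

theorem E_merge (u b : ℕ) : E (u + 1) + E (b + 1) ≤ E (u + b + 1) := by
  rcases le_total b u with h | h
  · have h1 := E_super (u + 1) b
    have h2 := E_succ_le b
    rw [min_eq_right (by omega), show u + 1 + b = u + b + 1 by ring] at h1
    omega
  · have h1 := E_super u (b + 1)
    have h2 := E_succ_le u
    rw [min_eq_left (by omega), show u + (b + 1) = u + b + 1 by ring] at h1
    omega

variable {α : Type*} [DecidableEq α]

theorem IsDown.supp_nonMember {D : Finset (Finset α)} (hD : IsDown D) (x : α) :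
    (D.nonMemberSubfamily x).biUnion id = (D.biUnion id).erase x := by
  ext y
  simp only [Finset.mem_biUnion, Finset.mem_erase, Finset.mem_nonMemberSubfamily, id]
  constructor
  · rintro ⟨A, ⟨hA, hx⟩, hy⟩
    exact ⟨fun h => hx (h ▸ hy), A, hA, hy⟩
  · rintro ⟨hne, A, hA, hy⟩
    exact ⟨A.erase x, ⟨hD A hA x, Finset.notMem_erase x A⟩, Finset.mem_erase.2 ⟨hne, hy⟩⟩

theorem IsDown.exists_strict {D : Finset (Finset α)} (hD : IsDown D) (hne : D.Nonempty)
    (hc : D.card < 2 ^ (D.biUnion id).card) :
    ∃ x ∈ D.biUnion id, 1 ≤ (D.memberSubfamily x).card ∧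
      (D.memberSubfamily x).card < (D.nonMemberSubfamily x).card := by
  by_cases h : ∀ x ∈ D.biUnion id, ∀ A ∈ D, insert x A ∈ D
  · exfalso
    obtain ⟨A0, hA0⟩ := hne
    have hsub : (D.biUnion id).powerset ⊆ D := by
      intro A hA
      rw [Finset.mem_powerset] at hA
      induction A using Finset.induction_on with
      | empty => exact hD.empty_mem hA0
      | insert x A hx ih =>
        exact h x (hA (Finset.mem_insert_self x A)) A
          (ih ((Finset.subset_insert x A).trans hA))
    have := Finset.card_le_card hsub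
    rw [Finset.card_powerset] at this
    omega
  · push Not at h
    obtain ⟨x, hx, A, hA, hxA⟩ := h
    refine ⟨x, hx, ?_, ?_⟩
    · obtain ⟨B, hB, hxB⟩ := Finset.mem_biUnion.1 hx
      replace hxB : x ∈ B := hxB
      apply Finset.card_pos.2
      refine ⟨B.erase x, ?_⟩
      rw [Finset.mem_memberSubfamily, Finset.insert_erase hxB]
      exact ⟨hB, Finset.notMem_erase x B⟩
    · have hxA' : x ∉ A := by
        intro h'
        rw [Finset.insert_eq_of_mem h'] at hxA
        exact hxA hA
      apply Finset.card_lt_card
      refine ⟨hD.member_subset x, fun hsub => ?_⟩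
      have : A ∈ D.memberSubfamily x := hsub (Finset.mem_nonMemberSubfamily.2 ⟨hA, hxA'⟩)
      exact hxA (Finset.mem_memberSubfamily.1 this).1

/-- A down-set with `w + 1 ≤ 2 ^ k` members and support of size `k + 1` has total size at most
`E w + 1`. -/
theorem iso_supp (k : ℕ) : ∀ D : Finset (Finset α), IsDown D → (D.biUnion id).card = k + 1 →
    ∀ w, D.card = w + 1 → w + 1 ≤ 2 ^ k → ∑ A ∈ D, A.card ≤ E w + 1 := by
  induction k with
  | zero =>
    intro D hD _ w hw hle
    have h0 : w = 0 := by simp at hle; omega
    have := iso D hD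
    rw [hw, h0, zero_add, E_one] at this
    omega
  | succ k ih =>
    intro D hD hs w hw hle
    have hne : D.Nonempty := by rw [← Finset.card_pos]; omega
    have hp : 0 < 2 ^ k := by positivity
    obtain ⟨x, hx, hb, hlt⟩ := hD.exists_strict hne (by
      rw [hs, hw, pow_succ, pow_succ] at *
      omega)
    have hcard := Finset.card_memberSubfamily_add_card_nonMemberSubfamily x D
    have h1 := iso _ (hD.member x)
    have h0 := iso _ (hD.nonMember x)
    have hsupp : ((D.nonMemberSubfamily x).biUnion id).card = k + 1 := by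
      rw [hD.supp_nonMember x]
      have := Finset.card_erase_add_one hx
      omega
    have ih0 := ih _ (hD.nonMember x) hsupp
    rw [sum_card_split D x]
    rw [pow_succ] at hle
    obtain ⟨a, ha⟩ : ∃ a, (D.nonMemberSubfamily x).card = a + 1 :=
      ⟨(D.nonMemberSubfamily x).card - 1, by omega⟩
    obtain ⟨b, hb'⟩ : ∃ b, (D.memberSubfamily x).card = b + 1 :=
      ⟨(D.memberSubfamily x).card - 1, by omega⟩
    rw [ha] at h0 hlt hcard
    rw [hb'] at h1 hlt hcard ⊢
    have hw' : w = a + (b + 1) := by omega
    rcases le_or_gt (a + 1) (2 ^ k) with h | h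
    · have e1 := ih0 a ha h
      have e2 := E_super a (b + 1)
      rw [min_eq_right (by omega), ← hw'] at e2
      omega
    · obtain ⟨u, hu⟩ : ∃ u, a + 1 = 2 ^ k + (u + 1) := ⟨a - 2 ^ k, by omega⟩
      have e1 := E_pow_add k (u + 1) (by omega)
      have e2 := E_pow_add k (u + b + 1) (by omega)
      have e3 := E_merge u b
      rw [← hu] at e1
      rw [show 2 ^ k + (u + b + 1) = w by omega] at e2
      omega

end Pool.Agent.Lib.MP_24ae9b_co
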