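import Pool.Agent.Lib.MP_24ae9b_co.TwoIso

/-! The two-parameter lower bound for the total size of a union-closed family. -/

namespace Pool.Agent.Lib.MP_24ae9b_co

open Finset

variable {α : Type*} [DecidableEq α]

/-- Output of Reimer's rising map: a down-set of complements, the packing bound, and injectivity
of the projection to the support of the down-set. -/
theorem two_core (F : Finset (Finset α)) (hF : ∀ A ∈ F, ∀ B ∈ F, A ∪ B ∈ F)
    (K t : ℕ) (hm : F.card = 2 ^ K + 1 + t) :
    K + 1 ≤ (F.biUnion id).card ∧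
    ∃ D : Finset (Finset α), IsDown D ∧ D.card = F.card ∧ D.biUnion id ⊆ F.biUnion id ∧
      (F.biUnion id).card + (2 ^ K + t) * (K + 2) + 1
        ≤ ∑ A ∈ F, A.card + 2 ^ (K + 1) + ∑ X ∈ D, X.card ∧
      ∀ A ∈ F, ∀ B ∈ F, A ∩ D.biUnion id = B ∩ D.biUnion id → A = B := by
  set N := F.biUnion id with hN
  set n := N.card with hn
  have hne : F.Nonempty := by
    rw [← Finset.card_pos, hm]; positivity
  have hNF : N ∈ F := biUnion_mem F hF F hne subset_rfl
  have hsub : ∀ A ∈ F, A ⊆ N := fun A hA _ hy => Finset.mem_biUnion.2 ⟨A, hA, hy⟩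
  obtain ⟨f, h1, h2, -, h4, h5⟩ := rising F hF N
  have h2' : ∀ A ∈ F, f A ⊆ N := by
    intro A hA
    have := h2 A hA
    rwa [Finset.union_eq_right.2 (hsub A hA)] at this
  have hdisj : ∀ A ∈ F, ∀ B ∈ F, ∀ C, A ⊆ C → C ⊆ f A → B ⊆ C → C ⊆ f B → A = B := by
    intro A hA B hB C a1 a2 b1 b2
    have hD := hF A hA B hB
    have hC : A ∪ B ⊆ C := Finset.union_subset a1 b1
    have e1 := h4 A hA _ hD Finset.subset_union_left (hC.trans a2)
    have e2 := h4 B hB _ hD Finset.subset_union_right (hC.trans b2)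
    rw [e1]; exact e2.symm
  have hinj : ∀ A ∈ F, ∀ B ∈ F, f A = f B → A = B := by
    intro A hA B hB h
    exact hdisj A hA B hB (f A) (h1 A hA) subset_rfl (h ▸ h1 B hB) (h ▸ subset_rfl)
  -- the down-set of complements
  set D := F.image (fun A => N \ f A) with hD
  have hcinj : ∀ A ∈ F, ∀ B ∈ F, N \ f A = N \ f B → A = B := by
    intro A hA B hB h
    apply hinj A hA B hB
    rw [← Finset.sdiff_sdiff_eq_self (h2' A hA), h, Finset.sdiff_sdiff_eq_self (h2' B hB)]
  have hDcard : D.card = F.card := Finset.card_image_of_injOn (fun A hA B hB h => hcinj A hA B hB h)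
  have hDdown : IsDown D := by
    intro X hX x
    obtain ⟨A, hA, rfl⟩ := Finset.mem_image.1 hX
    by_cases hx : x ∈ N
    · obtain ⟨C, hC, hCe⟩ := Finset.mem_image.1 (h5 A hA x hx)
      refine Finset.mem_image.2 ⟨C, hC, ?_⟩
      rw [hCe, Finset.sdiff_insert]
    · rw [Finset.erase_eq_of_notMem (fun h => hx (Finset.mem_sdiff.1 h).1)]
      exact hX
  have hDsum : ∑ X ∈ D, X.card = ∑ A ∈ F, (N \ f A).card :=
    Finset.sum_image (fun A hA B hB h => hcinj A hA B hB h)
  -- size identity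
  have hsize : ∑ A ∈ F, A.card + ∑ A ∈ F, (f A \ A).card + ∑ X ∈ D, X.card = n * F.card := by
    rw [hDsum, ← Finset.sum_add_distrib, ← Finset.sum_add_distrib, mul_comm, ← smul_eq_mul,
      ← Finset.sum_const]
    apply Finset.sum_congr rfl
    intro A hA
    have e1 := Finset.card_sdiff_add_card_eq_card (h1 A hA)
    have e2 := Finset.card_sdiff_add_card_eq_card (h2' A hA)
    omega
  -- packing of the intervals
  have hpack : ∑ A ∈ F, 2 ^ (f A \ A).card ≤ 2 ^ n := by
    have e1 : ∑ A ∈ F, 2 ^ (f A \ A).card = (F.biUnion (fun A => Finset.Icc A (f A))).card := by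
      rw [Finset.card_biUnion]
      · apply Finset.sum_congr rfl
        intro A hA
        rw [Finset.card_Icc_finset (h1 A hA), Finset.card_sdiff_of_subset (h1 A hA)]
      · intro A hA B hB hAB
        rw [Function.onFun, Finset.disjoint_left]
        intro C hCA hCB
        rw [Finset.mem_Icc] at hCA hCB
        exact hAB (hdisj A hA B hB C hCA.1 hCA.2 hCB.1 hCB.2)
    rw [e1, hn, ← Finset.card_powerset]
    apply Finset.card_le_card
    intro C hC
    obtain ⟨A, hA, hCA⟩ := Finset.mem_biUnion.1 hC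
    rw [Finset.mem_Icc] at hCA
    exact Finset.mem_powerset.2 (Finset.Subset.trans hCA.2 (h2' A hA))
  have hKn : K < n := by
    have e1 : F.card ≤ 2 ^ n := by
      rw [hn, ← Finset.card_powerset]
      exact Finset.card_le_card (fun A hA => Finset.mem_powerset.2 (hsub A hA))
    have : 2 ^ K < 2 ^ n := by omega
    exact (Nat.pow_lt_pow_iff_right (by norm_num)).1 this
  obtain ⟨c, hc⟩ : ∃ c, n = c + (K + 1) := ⟨n - (K + 1), by omega⟩
  have hdN : (f N \ N).card = 0 := by
    rw [Finset.card_eq_zero, Finset.sdiff_eq_empty_iff_subset]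
    exact h2' N hNF
  have hd : (∑ A ∈ F, (f A \ A).card : ℤ) + (2 ^ K + t) + 1 ≤ (2 ^ K + t) * c + 2 ^ (K + 1) := by
    have e1 := Finset.add_sum_erase F (fun A => 2 ^ (f A \ A).card) hNF
    have e2 := Finset.add_sum_erase F (fun A => ((f A \ A).card : ℤ)) hNF
    simp only [hdN, pow_zero, Nat.cast_zero, zero_add] at e1 e2
    have e3 : ∑ A ∈ F.erase N, (2 : ℤ) ^ c * (((f A \ A).card : ℤ) - c + 1)
        ≤ ∑ A ∈ F.erase N, (2 : ℤ) ^ (f A \ A).card :=
      Finset.sum_le_sum (fun A _ => two_pow_tangent c _)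
    have e4 : (1 : ℤ) + ∑ A ∈ F.erase N, (2 : ℤ) ^ (f A \ A).card ≤ 2 ^ n := by
      rw [← e1] at hpack
      exact_mod_cast hpack
    have e5 : ((F.erase N).card : ℤ) = 2 ^ K + t := by
      have := Finset.card_erase_add_one hNF
      have h' : (F.erase N).card = 2 ^ K + t := by omega
      rw [h']; push_cast; ring
    rw [← Finset.mul_sum, Finset.sum_add_distrib, Finset.sum_sub_distrib, e2] at e3
    simp only [Finset.sum_const, nsmul_eq_mul, mul_one, e5] at e3
    rw [hc, pow_add] at e4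
    have h2c : (0 : ℤ) < 2 ^ c := by positivity
    have e6 : (2 : ℤ) ^ c * ((∑ A ∈ F, ((f A \ A).card : ℤ)) - (2 ^ K + t) * c + (2 ^ K + t))
        < 2 ^ c * 2 ^ (K + 1) := by linarith
    have e7 := lt_of_mul_lt_mul_left e6 h2c.le
    linarith
  refine ⟨hKn, D, hDdown, hDcard, ?_, ?_, ?_⟩
  · intro y hy
    obtain ⟨X, hX, hyX⟩ := Finset.mem_biUnion.1 hy
    obtain ⟨A, _, rfl⟩ := Finset.mem_image.1 hX
    exact (Finset.mem_sdiff.1 hyX).1
  · have hs' : (∑ A ∈ F, A.card : ℤ) + (∑ A ∈ F, (f A \ A).card : ℤ) + (∑ X ∈ D, X.card : ℤ)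
        = (c + (K + 1)) * (2 ^ K + 1 + t) := by
      rw [hm, hc] at hsize
      exact_mod_cast hsize
    have goal : ((c : ℤ) + (K + 1)) + (2 ^ K + t) * (K + 2) + 1
        ≤ (∑ A ∈ F, A.card : ℤ) + 2 ^ (K + 1) + (∑ X ∈ D, X.card : ℤ) := by
      nlinarith
    rw [hc]
    exact_mod_cast goal
  · have aux : ∀ A ∈ F, ∀ B ∈ F, A ∩ D.biUnion id = B ∩ D.biUnion id → A = A ∪ B := by
      intro A hA B hB h
      apply h4 A hA _ (hF A hA B hB) Finset.subset_union_left
      apply Finset.union_subset (h1 A hA)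
      intro y hy
      by_contra hyf
      have hyD : y ∈ D.biUnion id :=
        Finset.mem_biUnion.2 ⟨N \ f A, Finset.mem_image_of_mem _ hA,
          Finset.mem_sdiff.2 ⟨hsub B hB hy, hyf⟩⟩
      have : y ∈ A ∩ D.biUnion id := by
        rw [h]; exact Finset.mem_inter.2 ⟨hy, hyD⟩
      exact hyf (h1 A hA (Finset.mem_inter.1 this).1)
    intro A hA B hB h
    rw [aux A hA B hB h, Finset.union_comm]
    exact (aux B hB A hA h.symm).symm

/-- If the projection to `S` is injective on a union-closed family, every point of the universe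
misses at most `2 ^ (|S| - 1)` members. -/
theorem two_degree (F : Finset (Finset α)) (hF : ∀ A ∈ F, ∀ B ∈ F, A ∪ B ∈ F) (S : Finset α)
    (hSN : S ⊆ F.biUnion id) (hproj : ∀ A ∈ F, ∀ B ∈ F, A ∩ S = B ∩ S → A = B) (K : ℕ)
    (hS : S.card ≤ K + 1) (x : α) (hx : x ∈ F.biUnion id) :
    F.card ≤ (F.filter (fun A => x ∈ A)).card + 2 ^ K := by
  have hne : F.Nonempty := by
    obtain ⟨A, hA, _⟩ := Finset.mem_biUnion.1 hx
    exact ⟨A, hA⟩
  have hNF : F.biUnion id ∈ F := biUnion_mem F hF F hne subset_rfl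
  have hsplit := Finset.card_filter_add_card_filter_not (s := F) (fun A => x ∈ A)
  set H := F.filter (fun A => ¬ x ∈ A) with hH
  rcases H.eq_empty_or_nonempty with hE | hNe
  · rw [hE, Finset.card_empty, add_zero] at hsplit
    rw [hsplit]
    exact Nat.le_add_right _ _
  · have hB : H.biUnion id ∈ F := biUnion_mem F hF H hNe (Finset.filter_subset _ _)
    have hxB : x ∉ H.biUnion id := by
      intro h
      obtain ⟨A, hA, hxA⟩ := Finset.mem_biUnion.1 h
      exact (Finset.mem_filter.1 hA).2 hxA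
    obtain ⟨s, hs, hsB⟩ : ∃ s ∈ S, s ∉ H.biUnion id := by
      by_contra hcon
      push Not at hcon
      have : H.biUnion id = F.biUnion id := by
        apply hproj _ hB _ hNF
        rw [Finset.inter_eq_right.2 hcon, Finset.inter_eq_right.2 hSN]
      rw [this] at hxB
      exact hxB hx
    have hHc : H.card ≤ (S.erase s).powerset.card := by
      apply Finset.card_le_card_of_injOn (fun A => A ∩ S)
      · intro A hA
        simp only [Finset.mem_coe, Finset.mem_powerset] at hA ⊢
        intro y hy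
        rw [Finset.mem_inter] at hy
        refine Finset.mem_erase.2 ⟨fun h => hsB ?_, hy.2⟩
        exact Finset.mem_biUnion.2 ⟨A, hA, h ▸ hy.1⟩
      · intro A hA B hB' h
        exact hproj A (Finset.mem_filter.1 hA).1 B (Finset.mem_filter.1 hB').1 h
    rw [Finset.card_powerset] at hHc
    have e := Finset.card_erase_add_one hs
    have : 2 ^ (S.erase s).card ≤ 2 ^ K := Nat.pow_le_pow_right (by norm_num) (by omega)
    omega

theorem two_lower (F : Finset (Finset α)) (hF : ∀ A ∈ F, ∀ B ∈ F, A ∪ B ∈ F)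
    (K t : ℕ) (ht : t < 2 ^ K) (hm : F.card = 2 ^ K + 1 + t)
    (hn : K + 2 ≤ (F.biUnion id).card) :
    2 * (F.biUnion id).card + K * 2 ^ K + 2 * ((K + 1) * t) ≤ 2 * ∑ A ∈ F, A.card + 2 * E t := by
  have hE := E_pow_add K t ht.le
  suffices h : (F.biUnion id).card + (2 ^ K + t) * (K + 2)
      ≤ ∑ A ∈ F, A.card + 2 ^ (K + 1) + E (2 ^ K + t) by
    rw [pow_succ] at h
    nlinarith
  obtain ⟨-, D, hD, hDc, hSN, hb, hproj⟩ := two_core F hF K t hm
  set S := D.biUnion id with hS
  rcases le_or_gt (K + 2) S.card with h | h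
  · obtain ⟨k, hk⟩ : ∃ k, S.card = k + 1 := ⟨S.card - 1, by omega⟩
    have h2 : 2 ^ (K + 1) ≤ 2 ^ k := Nat.pow_le_pow_right (by norm_num) (by omega)
    have := iso_supp k D hD hk (2 ^ K + t) (by omega) (by rw [pow_succ] at h2; omega)
    omega
  · set G := F.image (fun A => A ∩ S) with hG
    have hGc : G.card = F.card :=
      Finset.card_image_of_injOn (fun A hA B hB h => hproj A hA B hB h)
    have hGu : ∀ A ∈ G, ∀ B ∈ G, A ∪ B ∈ G := by
      intro A hA B hB
      obtain ⟨A', hA', rfl⟩ := Finset.mem_image.1 hA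
      obtain ⟨B', hB', rfl⟩ := Finset.mem_image.1 hB
      exact Finset.mem_image.2 ⟨A' ∪ B', hF _ hA' _ hB', Finset.union_inter_distrib_right _ _ _⟩
    obtain ⟨hK', D', hD', hD'c, -, hb', -⟩ := two_core G hGu K t (hGc.trans hm)
    have hi := iso D' hD'
    rw [hD'c, hGc, hm, show 2 ^ K + 1 + t = 2 ^ K + (t + 1) by ring] at hi
    have hE' := E_pow_add K (t + 1) ht
    have hs := E_succ_le t
    have hGsum : ∑ A ∈ G, A.card = ∑ A ∈ F, (A ∩ S).card :=
      Finset.sum_image (fun A hA B hB h => hproj A hA B hB h)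
    have hsplit : ∑ A ∈ F, A.card = ∑ A ∈ F, (A ∩ S).card + ∑ A ∈ F, (A \ S).card := by
      rw [← Finset.sum_add_distrib]
      exact Finset.sum_congr rfl (fun A _ => (Finset.card_inter_add_card_sdiff A S).symm)
    have hdouble : ∑ A ∈ F, (A \ S).card
        = ∑ x ∈ F.biUnion id \ S, (F.filter (fun A => x ∈ A)).card := by
      simp only [Finset.card_filter]
      rw [Finset.sum_comm]
      apply Finset.sum_congr rfl
      intro A hA
      rw [← Finset.card_filter]
      congr 1
      ext y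
      simp only [Finset.mem_filter, Finset.mem_sdiff]
      exact ⟨fun h => ⟨⟨Finset.mem_biUnion.2 ⟨A, hA, h.1⟩, h.2⟩, h.1⟩, fun h => ⟨h.2, h.1.2⟩⟩
    have hdeg : (F.biUnion id \ S).card * (t + 1) ≤ ∑ A ∈ F, (A \ S).card := by
      rw [hdouble, ← smul_eq_mul, ← Finset.sum_const]
      apply Finset.sum_le_sum
      intro x hx
      have := two_degree F hF S hSN hproj K (by omega) x (Finset.mem_sdiff.1 hx).1
      omega
    have hc := Finset.card_sdiff_add_card_eq_card hSN
    obtain ⟨c, hc'⟩ : ∃ c, (F.biUnion id \ S).card = c + 1 :=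
      ⟨(F.biUnion id \ S).card - 1, by omega⟩
    rw [hc'] at hdeg hc
    have hdeg' : c + 1 + t ≤ ∑ A ∈ F, (A \ S).card := by nlinarith
    omega

end Pool.Agent.Lib.MP_24ae9b_co
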