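import Pool.Agent.Lib.MP_24ae9b_co.TwoIso

/-! The extremal families for the two-parameter size problem, and `E` as a sum of digit sums. -/

namespace Pool.Agent.Lib.MP_24ae9b_co

open Finset

theorem digit_sum_rec (n : ℕ) : (Nat.digits 2 n).sum = n % 2 + (Nat.digits 2 (n / 2)).sum := by
  rcases Nat.eq_zero_or_pos n with rfl | hn
  · simp
  · rw [Nat.digits_def' (by norm_num) hn, List.sum_cons]

theorem E_succ (b : ℕ) : E (b + 1) = E b + (Nat.digits 2 b).sum := by
  induction b using Nat.strong_induction_on with
  | _ b ih =>
    rcases Nat.even_or_odd' b with ⟨v, rfl | rfl⟩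
    · rcases Nat.eq_zero_or_pos v with rfl | hv
      · simp [E_zero, E_one]
      · have := ih v (by omega)
        rw [E_odd, E_even, digit_sum_rec, show 2 * v / 2 = v by omega]; omega
    · have := ih v (by omega)
      have e : 2 * v + 1 + 1 = 2 * (v + 1) := by ring
      rw [e, E_even, E_odd, digit_sum_rec, show (2 * v + 1) / 2 = v by omega]; omega

theorem E_eq_sum (t : ℕ) : E t = ∑ i ∈ Finset.range t, (Nat.digits 2 i).sum := by
  induction t with
  | zero => simp [E_zero]
  | succ t ih => rw [E_succ, Finset.sum_range_succ, ih]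

theorem two_sum_powerset (S : Finset ℕ) :
    2 * ∑ A ∈ S.powerset, A.card = S.card * 2 ^ S.card := by
  induction S using Finset.induction_on with
  | empty => simp
  | insert x S hx ih =>
    rw [Finset.sum_powerset_insert hx, Finset.card_insert_of_notMem hx]
    have : ∑ A ∈ S.powerset, (insert x A).card = ∑ A ∈ S.powerset, (A.card + 1) := by
      apply Finset.sum_congr rfl
      intro A hA
      rw [Finset.card_insert_of_notMem (fun h => hx (Finset.mem_powerset.1 hA h))]
    rw [this, Finset.sum_add_distrib]
    simp only [Finset.sum_const, Finset.card_powerset, smul_eq_mul, mul_one]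
    rw [pow_succ]
    nlinarith

theorem down_exists (K : ℕ) : ∀ t, t ≤ 2 ^ K → ∃ D : Finset (Finset ℕ),
    (∀ A ∈ D, A ⊆ Finset.range K) ∧ (∀ A ∈ D, ∀ B, B ⊆ A → B ∈ D) ∧ D.card = t ∧
      ∑ A ∈ D, A.card = E t := by
  induction K with
  | zero =>
    intro t ht
    have : t = 0 ∨ t = 1 := by simp at ht; omega
    rcases this with rfl | rfl
    · exact ⟨∅, by simp, by simp, by simp, by simp [E_zero]⟩
    · exact ⟨{∅}, by simp, by simp, by simp, by simp [E_one]⟩
  | succ K ih =>
    intro t ht
    rcases le_or_gt t (2 ^ K) with h | h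
    · obtain ⟨D, h1, h2, h3, h4⟩ := ih t h
      exact ⟨D, fun A hA => (h1 A hA).trans (Finset.range_subset_range.2 (Nat.le_succ K)),
        h2, h3, h4⟩
    · obtain ⟨v, rfl⟩ : ∃ v, t = 2 ^ K + v := ⟨t - 2 ^ K, by omega⟩
      rw [pow_succ] at ht
      obtain ⟨D, h1, h2, h3, h4⟩ := ih v (by omega)
      have hK : ∀ A ∈ D, K ∉ A := fun A hA hk => by simpa using h1 A hA hk
      have hinj : Set.InjOn (fun A : Finset ℕ => insert K A) D := by
        intro A hA B hB hAB
        have := congrArg (fun X => Finset.erase X K) hAB
        simpa [Finset.erase_insert (hK A hA), Finset.erase_insert (hK B hB)] using this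
      have hdis : Disjoint (Finset.range K).powerset (D.image (fun A => insert K A)) := by
        rw [Finset.disjoint_left]
        intro A hA hA'
        obtain ⟨B, _, rfl⟩ := Finset.mem_image.1 hA'
        simpa using Finset.mem_powerset.1 hA (Finset.mem_insert_self K B)
      refine ⟨(Finset.range K).powerset ∪ D.image (fun A => insert K A), ?_, ?_, ?_, ?_⟩
      · intro A hA
        rcases Finset.mem_union.1 hA with hA | hA
        · exact (Finset.mem_powerset.1 hA).trans (Finset.range_subset_range.2 (Nat.le_succ K))
        · obtain ⟨B, hB, rfl⟩ := Finset.mem_image.1 hA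
          rw [Finset.range_add_one]
          exact Finset.insert_subset_insert K (h1 B hB)
      · intro A hA C hC
        rcases Finset.mem_union.1 hA with hA | hA
        · exact Finset.mem_union_left _
            (Finset.mem_powerset.2 (hC.trans (Finset.mem_powerset.1 hA)))
        · obtain ⟨B, hB, rfl⟩ := Finset.mem_image.1 hA
          by_cases hKC : K ∈ C
          · refine Finset.mem_union_right _ (Finset.mem_image.2 ⟨C.erase K, ?_, ?_⟩)
            · exact h2 B hB _ (Finset.subset_insert_iff.1 hC)
            · exact Finset.insert_erase hKC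
          · exact Finset.mem_union_left _ (Finset.mem_powerset.2
              (((Finset.subset_insert_iff_of_notMem hKC).1 hC).trans (h1 B hB)))
      · rw [Finset.card_union_of_disjoint hdis, Finset.card_image_of_injOn hinj,
          Finset.card_powerset, Finset.card_range, h3]
      · rw [Finset.sum_union hdis, Finset.sum_image hinj]
        have e1 := two_sum_powerset (Finset.range K)
        rw [Finset.card_range] at e1
        have e2 : ∑ A ∈ D, (insert K A).card = ∑ A ∈ D, (A.card + 1) :=
          Finset.sum_congr rfl (fun A hA => Finset.card_insert_of_notMem (hK A hA))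
        rw [e2, Finset.sum_add_distrib, h4]
        simp only [Finset.sum_const, smul_eq_mul, mul_one, h3]
        have e3 := E_pow_add K v (by omega)
        omega

theorem two_upper (K t n : ℕ) (ht : t ≤ 2 ^ K) (hn : K + 2 ≤ n) :
    ∃ F : Finset (Finset ℕ), (∀ A ∈ F, ∀ B ∈ F, A ∪ B ∈ F) ∧ F.card = 2 ^ K + 1 + t ∧
      (F.biUnion id).card = n ∧
      2 * ∑ A ∈ F, A.card + 2 * E t = 2 * n + K * 2 ^ K + 2 * ((K + 1) * t) := by
  obtain ⟨D, h1, h2, h3, h4⟩ := down_exists K t ht
  set R := Finset.range K with hR
  have hKR : K ∉ R := by simp [hR]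
  have hK : ∀ B : Finset ℕ, K ∉ R \ B := fun B h => hKR (Finset.mem_sdiff.1 h).1
  set U := D.image (fun B => insert K (R \ B)) with hU
  have hinj : Set.InjOn (fun B : Finset ℕ => insert K (R \ B)) D := by
    intro A hA B hB hAB
    have := congrArg (fun X => Finset.erase X K) hAB
    simp only [Finset.erase_insert (hK A), Finset.erase_insert (hK B)] at this
    rw [← Finset.sdiff_sdiff_eq_self (h1 A hA), this, Finset.sdiff_sdiff_eq_self (h1 B hB)]
  have hdis : Disjoint R.powerset U := by
    rw [Finset.disjoint_left]
    intro A hA hA'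
    obtain ⟨B, _, rfl⟩ := Finset.mem_image.1 hA'
    exact hKR (Finset.mem_powerset.1 hA (Finset.mem_insert_self K _))
  have hsub : ∀ A ∈ R.powerset ∪ U, A ⊆ Finset.range (K + 1) := by
    intro A hA
    rw [Finset.range_add_one]
    rcases Finset.mem_union.1 hA with hA | hA
    · exact (Finset.mem_powerset.1 hA).trans (Finset.subset_insert _ _)
    · obtain ⟨B, _, rfl⟩ := Finset.mem_image.1 hA
      exact Finset.insert_subset_insert K Finset.sdiff_subset
  have hsub' : ∀ A ∈ R.powerset ∪ U, A ⊆ Finset.range n :=
    fun A hA => (hsub A hA).trans (Finset.range_subset_range.2 (by omega))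
  have hnot : Finset.range n ∉ R.powerset ∪ U := by
    intro h
    have := Finset.range_subset_range.1 (hsub _ h)
    omega
  have hUA : ∀ B ∈ D, ∀ A, A ⊆ insert K R → insert K (R \ B) ∪ A ∈ U := by
    intro B hB A hA
    refine Finset.mem_image.2 ⟨B \ A, h2 B hB _ Finset.sdiff_subset, ?_⟩
    ext y
    have := @hA y
    simp only [Finset.mem_insert, Finset.mem_sdiff, Finset.mem_union] at this ⊢
    tauto
  have hcl : ∀ A ∈ R.powerset ∪ U, ∀ B ∈ R.powerset ∪ U, A ∪ B ∈ R.powerset ∪ U := by
    intro A hA B hB
    have hA' := hsub A hA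
    have hB' := hsub B hB
    rw [Finset.range_add_one] at hA' hB'
    rcases Finset.mem_union.1 hA with hA | hA
    · rcases Finset.mem_union.1 hB with hB | hB
      · exact Finset.mem_union_left _ (Finset.mem_powerset.2
          (Finset.union_subset (Finset.mem_powerset.1 hA) (Finset.mem_powerset.1 hB)))
      · obtain ⟨C, hC, rfl⟩ := Finset.mem_image.1 hB
        rw [Finset.union_comm A]
        exact Finset.mem_union_right _ (hUA C hC A hA')
    · obtain ⟨C, hC, rfl⟩ := Finset.mem_image.1 hA
      exact Finset.mem_union_right _ (hUA C hC B hB')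
  refine ⟨insert (Finset.range n) (R.powerset ∪ U), ?_, ?_, ?_, ?_⟩
  · intro A hA B hB
    rcases Finset.mem_insert.1 hA with rfl | hA
    · rcases Finset.mem_insert.1 hB with rfl | hB
      · simp
      · rw [Finset.union_eq_left.2 (hsub' B hB)]
        exact Finset.mem_insert_self _ _
    · rcases Finset.mem_insert.1 hB with rfl | hB
      · rw [Finset.union_eq_right.2 (hsub' A hA)]
        exact Finset.mem_insert_self _ _
      · exact Finset.mem_insert_of_mem (hcl A hA B hB)
  · rw [Finset.card_insert_of_notMem hnot, Finset.card_union_of_disjoint hdis,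
      Finset.card_image_of_injOn hinj, Finset.card_powerset, hR, Finset.card_range, h3]
    ring
  · have : (insert (Finset.range n) (R.powerset ∪ U)).biUnion id = Finset.range n := by
      apply Finset.Subset.antisymm
      · intro y hy
        obtain ⟨A, hA, hyA⟩ := Finset.mem_biUnion.1 hy
        rcases Finset.mem_insert.1 hA with rfl | hA
        · exact hyA
        · exact hsub' A hA hyA
      · intro y hy
        exact Finset.mem_biUnion.2 ⟨_, Finset.mem_insert_self _ _, hy⟩
    rw [this, Finset.card_range]
  · rw [Finset.sum_insert hnot, Finset.sum_union hdis, Finset.sum_image hinj, Finset.card_range]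
    have e1 := two_sum_powerset R
    have hRc : R.card = K := Finset.card_range K
    rw [hRc] at e1
    have e2 : ∑ B ∈ D, (insert K (R \ B)).card + ∑ B ∈ D, B.card = (K + 1) * t := by
      rw [← Finset.sum_add_distrib, ← h3, mul_comm, ← smul_eq_mul, ← Finset.sum_const]
      apply Finset.sum_congr rfl
      intro B hB
      rw [Finset.card_insert_of_notMem (hK B)]
      have := Finset.card_sdiff_add_card_eq_card (h1 B hB)
      omega
    omega

end Pool.Agent.Lib.MP_24ae9b_co
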